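import Pool.Agent.Helper14.SP2.Defs

/-!
# Project SP2, piece A1 (helper43): from flexible roots to the blowup
-/

set_option autoImplicit false

namespace Pool.Agent.Helper14.SP

open Finset Classical
open Pool.Agent.Helper97.RE (IsPath Rich PP Clean Cb)
open Pool.Agent.Helper55.JS (BV pt blow)

/-- the roots are not among the centre and the inner vertices of a copy -/
theorem A1_root_not_mem_inn {s : ℕ} {j : Fin s → ℕ} (hj : ∀ c, 1 ≤ j c) {V : Type}
    {G : SimpleGraph V} {X : Fin s → V} {x : Obj (Fin s) V} (hx : Sp G j x)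
    (hX : ∀ c, x.2 c (j c) = X c) (c : Fin s) : X c ∉ inn j x := by
  rw [mem_inn]
  rintro (h | ⟨c', m, h1, h2, h3⟩)
  · exact hx.ne_centre (hj c) le_rfl ((hX c).trans h)
  · rw [← hX c] at h3
    have h4 := hx.inj c' c m (j c) h1 h2.le le_rfl h3
    obtain ⟨rfl, h5⟩ := h4
    omega

/-- disjoint copies with the same roots -/
theorem A1_copies {s t : ℕ} {j : Fin s → ℕ} (hj : ∀ c, 1 ≤ j c) {V : Type} (G : SimpleGraph V)
    (X : Fin s → V) (N : ℕ) (hN : t * (∑ c, j c + 1) ≤ N) (h : Flex G j N X) (k : ℕ)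
    (hk : k ≤ t) : ∃ x : ℕ → Obj (Fin s) V, (∀ a, a < k → Sp G j (x a) ∧
      ∀ c, (x a).2 c (j c) = X c) ∧ ∀ a b, a < k → b < k → a ≠ b →
        Disjoint (inn j (x a)) (inn j (x b)) := by
  induction k with
  | zero =>
    obtain ⟨x0, -⟩ := h ∅ (by simp) (by simp)
    exact ⟨fun _ => x0, fun a ha => absurd ha (Nat.not_lt_zero a),
      fun a b ha => absurd ha (Nat.not_lt_zero a)⟩
  | succ k ih =>
    obtain ⟨x, hx, hd⟩ := ih (Nat.le_of_succ_le hk)
    set Z : Finset V := (range k).biUnion fun a => inn j (x a) with hZ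
    have hZc : #Z ≤ N := by
      have h1 : #Z ≤ ∑ a ∈ range k, #(inn j (x a)) := card_biUnion_le
      have h2 : ∑ a ∈ range k, #(inn j (x a)) ≤ ∑ _a ∈ range k, (∑ c, j c + 1) :=
        sum_le_sum fun a _ => card_inn_le j (x a)
      have h3 : ∑ _a ∈ range k, (∑ c, j c + 1) = k * (∑ c, j c + 1) := by
        rw [sum_const, card_range, smul_eq_mul]
      have h4 : k * (∑ c, j c + 1) ≤ t * (∑ c, j c + 1) :=
        Nat.mul_le_mul_right _ (Nat.le_of_succ_le hk)
      omega
    have hXZ : ∀ c, X c ∉ Z := by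
      intro c hc
      rw [hZ, mem_biUnion] at hc
      obtain ⟨a, ha, hc⟩ := hc
      rw [mem_range] at ha
      exact A1_root_not_mem_inn hj (hx a ha).1 (hx a ha).2 c hc
    obtain ⟨y, hy1, hy2, hy3, hy4⟩ := h Z hZc hXZ
    have hyZ : Disjoint (inn j y) Z := by
      rw [Finset.disjoint_left]
      intro v hv hvZ
      rw [mem_inn] at hv
      rcases hv with rfl | ⟨c, m, h1, h2, rfl⟩
      · exact hy3 hvZ
      · exact hy4 c m h1 h2 hvZ
    have hyx : ∀ a, a < k → Disjoint (inn j y) (inn j (x a)) := by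
      intro a ha
      refine Finset.disjoint_of_subset_right ?_ hyZ
      rw [hZ]
      exact Finset.subset_biUnion_of_mem (fun a => inn j (x a)) (mem_range.2 ha)
    refine ⟨fun a => if a < k then x a else y, ?_, ?_⟩
    · intro a ha
      by_cases h1 : a < k
      · simp only [h1, if_true]; exact hx a h1
      · simp only [h1, if_false]; exact ⟨hy1, hy2⟩
    · intro a b ha hb hab
      by_cases h1 : a < k
      · by_cases h2 : b < k
        · simp only [h1, h2, if_true]; exact hd a b h1 h2 hab
        · simp only [h1, h2, if_true, if_false]; exact (hyx a h1).symm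
      · by_cases h2 : b < k
        · simp only [h1, h2, if_true, if_false]; exact hyx b h2
        · omega

theorem blow_of_flex {s t : ℕ} {j : Fin s → ℕ} (hj : ∀ c, 1 ≤ j c) {V : Type} (G : SimpleGraph V)
    (X : Fin s → V) (N : ℕ) (hN : t * (∑ c, j c + 1) ≤ N) (h : Flex G j N X) :
    (blow s t j).IsContained G := by
  obtain ⟨x, hx, hd⟩ := A1_copies hj G X N hN h t le_rfl
  have hXinj : Function.Injective X := by
    obtain ⟨x0, h1, h2, -⟩ := h ∅ (by simp) (by simp)
    intro c c' he
    rw [← h2 c, ← h2 c'] at he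
    exact (h1.inj c c' (j c) (j c') (hj c) le_rfl le_rfl he).1
  let f : BV s t j → V := fun p => match p with
    | Sum.inl c => X c
    | Sum.inr (a, none) => (x a).1
    | Sum.inr (a, some ⟨c, i⟩) => (x a).2 c (i + 1)
  have hf1 : ∀ c, f (Sum.inl c) = X c := fun c => rfl
  have hf2 : ∀ a : Fin t, f (Sum.inr (a, none)) = (x a).1 := fun a => rfl
  have hf3 : ∀ (a : Fin t) (c : Fin s) (i : Fin (j c - 1)),
      f (Sum.inr (a, some ⟨c, i⟩)) = (x a).2 c (i + 1) := fun a c i => rfl
  have hpt : ∀ (a : Fin t) (c : Fin s) (i : ℕ), i ≤ j c → f (pt a c i) = (x a).2 c i := by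
    intro a c i hi
    unfold pt
    split_ifs with h1 h2
    · rw [hf2, h1, (hx a a.2).1.start c]
    · rw [hf3]
      have e : i - 1 + 1 = i := by omega
      show (x a).2 c (i - 1 + 1) = (x a).2 c i
      rw [e]
    · have e : i = j c := by
        have := hj c
        omega
      rw [hf1, ← (hx a a.2).2 c, e]
  have hmem : ∀ (a : Fin t) (o : Option (Σ c : Fin s, Fin (j c - 1))),
      f (Sum.inr (a, o)) ∈ inn j (x a) := by
    intro a o
    rw [mem_inn]
    rcases o with _ | ⟨c, i⟩
    · exact Or.inl rfl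
    · refine Or.inr ⟨c, i + 1, by omega, ?_, rfl⟩
      have := i.2
      omega
  have hinj : Function.Injective f := by
    rintro (c | ⟨a, o⟩) (c' | ⟨a', o'⟩) he
    · rw [hf1, hf1] at he
      rw [hXinj he]
    · exfalso
      have h1 := hmem a' o'
      rw [← he, hf1] at h1
      exact A1_root_not_mem_inn hj (hx a' a'.2).1 (hx a' a'.2).2 c h1
    · exfalso
      have h1 := hmem a o
      rw [he, hf1] at h1
      exact A1_root_not_mem_inn hj (hx a a.2).1 (hx a a.2).2 c' h1
    · have haa : a = a' := by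
        by_contra hne
        have h1 := hmem a o
        have h2 := hmem a' o'
        rw [← he] at h2
        exact Finset.disjoint_left.1 (hd a a' a.2 a'.2 fun h => hne (Fin.ext h)) h1 h2
      subst haa
      have hS := (hx a a.2).1
      rcases o with _ | ⟨c, i⟩
      · rcases o' with _ | ⟨c', i'⟩
        · rfl
        · exfalso
          rw [hf2, hf3] at he
          have := i'.2
          exact hS.ne_centre (c := c') (m := i' + 1) (by omega) (by omega) he.symm
      · rcases o' with _ | ⟨c', i'⟩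
        · exfalso
          rw [hf2, hf3] at he
          have := i.2
          exact hS.ne_centre (c := c) (m := i + 1) (by omega) (by omega) he
        · rw [hf3, hf3] at he
          have h1 := i.2
          have h2 := i'.2
          obtain ⟨rfl, h3⟩ := hS.inj c c' (i + 1) (i' + 1) (by omega) (by omega) (by omega) he
          have h4 : i = i' := Fin.ext (by omega)
          rw [h4]
  have hadj : ∀ {p q : BV s t j}, (∃ (a : Fin t) (c : Fin s) (i : ℕ), i < j c ∧
      p = pt a c i ∧ q = pt a c (i + 1)) → G.Adj (f p) (f q) := by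
    rintro p q ⟨a, c, i, hi, rfl, rfl⟩
    rw [hpt a c i hi.le, hpt a c (i + 1) hi]
    exact (hx a a.2).1.adj c i hi
  refine ⟨⟨⟨f, ?_⟩, hinj⟩⟩
  intro p q hpq
  rw [blow, SimpleGraph.fromRel_adj] at hpq
  rcases hpq.2 with h1 | h1
  · exact hadj h1
  · exact (hadj h1).symm

end Pool.Agent.Helper14.SP
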