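import Pool.Agent.Helper14.SP2.Defs

/-!
# Project SP2, piece A2: attaching long legs
-/

set_option autoImplicit false

namespace Pool.Agent.Helper14.SP

open Finset Classical
open Pool.Agent.Helper97.RE (IsPath Rich PP Clean Cb)

theorem ext_of_rich {F V : Type} [Fintype F] (G : SimpleGraph V) (J : F → ℕ)
    (hJ : ∀ f, 1 ≤ J f) (z : F → V) (hz : Function.Injective z) (u : V) (Z : Finset V) (N : ℕ)
    (hN : #Z + ∑ f, (J f + 2) + 1 ≤ N) (h : ∀ f, Rich G (J f) N u (z f)) :
    Ext G J z u Z := by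
  -- choose the legs one after the other
  have key : ∀ S : Finset F, ∃ p : F → ℕ → V,
      (∀ f ∈ S, p f 0 = u ∧ p f (J f) = z f ∧ (∀ m, m < J f → G.Adj (p f m) (p f (m + 1))) ∧
        (∀ m m', m ≤ J f → m' ≤ J f → p f m = p f m' → m = m') ∧
        ∀ m, 1 ≤ m → m < J f → p f m ∉ Z ∧ ∀ f', p f m ≠ z f') ∧
      ∀ f ∈ S, ∀ f' ∈ S, f ≠ f' → ∀ m m', 1 ≤ m → m < J f → 1 ≤ m' → m' < J f' →
        p f m ≠ p f' m' := by
    intro S
    induction S using Finset.induction_on with
    | empty => exact ⟨fun _ _ => u, by simp, by simp⟩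
    | insert a S ha ih =>
      obtain ⟨p, hp1, hp2⟩ := ih
      set Z' : Finset V := (Z ∪ univ.image z) ∪ S.biUnion (fun f => (Ico 1 (J f)).image (p f))
        with hZ'
      have hcard : #Z' ≤ N := by
        have e1 : #(S.biUnion (fun f => (Ico 1 (J f)).image (p f))) ≤ ∑ f, J f := by
          refine card_biUnion_le.trans ?_
          refine (sum_le_sum (g := fun f => J f) fun f _ => ?_).trans
            (sum_le_sum_of_subset (subset_univ S))
          refine card_image_le.trans ?_
          rw [Nat.card_Ico]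
          omega
        have e2 : #(univ.image z) ≤ ∑ _f : F, 2 := by
          refine card_image_le.trans ?_
          rw [sum_const, card_univ, smul_eq_mul]
          omega
        have e3 : ∑ f, (J f + 2) = ∑ f, J f + ∑ _f : F, 2 := sum_add_distrib
        have e4 := card_union_le (Z ∪ univ.image z)
          (S.biUnion (fun f => (Ico 1 (J f)).image (p f)))
        have e5 := card_union_le Z (univ.image z)
        rw [hZ']
        omega
      obtain ⟨q, hq1, hq2, hq3, hq4⟩ := h a Z' hcard
      -- the new leg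
      let qq : ℕ → V := fun m => q ⟨min m (J a), by omega⟩
      have qle : ∀ m (hm : m ≤ J a), qq m = q ⟨m, by omega⟩ := by
        intro m hm
        change q ⟨min m (J a), by omega⟩ = _
        congr 1
        exact Fin.ext (min_eq_left hm)
      have hinn : ∀ m, 1 ≤ m → m < J a → qq m ∉ Z' := by
        intro m h1 h2
        rw [qle m h2.le]
        refine hq4 _ ?_ ?_
        · intro h0
          have := congrArg Fin.val h0
          simp only [Fin.val_zero] at this
          omega
        · intro h0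
          have := congrArg Fin.val h0
          simp only [Fin.val_last] at this
          omega
      refine ⟨Function.update p a qq, ?_, ?_⟩
      · intro f hf
        rcases eq_or_ne f a with rfl | hfa
        · rw [Function.update_self]
          refine ⟨?_, ?_, ?_, ?_, ?_⟩
          · rw [qle 0 (Nat.zero_le _), ← hq2]
            rfl
          · rw [qle _ le_rfl, ← hq3]
            rfl
          · intro m hm
            rw [qle m hm.le, qle (m + 1) hm]
            exact hq1.2 ⟨m, hm⟩
          · intro m m' hm hm' he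
            rw [qle m hm, qle m' hm'] at he
            have := congrArg Fin.val (hq1.1 he)
            exact this
          · intro m h1 h2
            have h3 := hinn m h1 h2
            rw [hZ', mem_union, mem_union, not_or, not_or] at h3
            refine ⟨h3.1.1, fun f' he => h3.1.2 ?_⟩
            rw [he]
            exact mem_image_of_mem _ (mem_univ _)
        · rw [Function.update_of_ne hfa]
          exact hp1 f ((mem_insert.1 hf).resolve_left hfa)
      · intro f hf f' hf' hff m m' h1 h2 h3 h4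
        rcases eq_or_ne f a with rfl | hfa
        · have hfa' : f' ≠ f := hff.symm
          have hS : f' ∈ S := (mem_insert.1 hf').resolve_left hfa'
          rw [Function.update_self, Function.update_of_ne hfa']
          intro he
          refine hinn m h1 h2 ?_
          rw [hZ', mem_union]
          right
          rw [mem_biUnion]
          exact ⟨f', hS, mem_image.2 ⟨m', mem_Ico.2 ⟨h3, h4⟩, he.symm⟩⟩
        · have hS : f ∈ S := (mem_insert.1 hf).resolve_left hfa
          rw [Function.update_of_ne hfa]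
          rcases eq_or_ne f' a with rfl | hfa'
          · rw [Function.update_self]
            intro he
            refine hinn m' h3 h4 ?_
            rw [hZ', mem_union]
            right
            rw [mem_biUnion]
            exact ⟨f, hS, mem_image.2 ⟨m, mem_Ico.2 ⟨h1, h2⟩, he⟩⟩
          · rw [Function.update_of_ne hfa']
            exact hp2 f hS f' ((mem_insert.1 hf').resolve_left hfa') hff m m' h1 h2 h3 h4
  obtain ⟨p, hp1, hp2⟩ := key univ
  refine ⟨(u, p), rfl, ⟨fun c => (hp1 c (mem_univ _)).1, fun c m hm =>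
    (hp1 c (mem_univ _)).2.2.1 m hm, ?_⟩, fun f => (hp1 f (mem_univ _)).2.1,
    fun f m h1 h2 => ((hp1 f (mem_univ _)).2.2.2.2 m h1 h2).1⟩
  intro c c' m m' h1 h2 h3 he
  change p c m = p c' m' at he
  obtain ⟨a1, a2, a3, a4, a5⟩ := hp1 c (mem_univ _)
  obtain ⟨b1, b2, b3, b4, b5⟩ := hp1 c' (mem_univ _)
  rcases eq_or_ne c c' with rfl | hcc
  · exact ⟨rfl, a4 m m' h2 h3 he⟩
  · exfalso
    rcases Nat.eq_zero_or_pos m' with h0 | h0
    · subst h0
      rw [b1, ← a1] at he
      have := a4 m 0 h2 (Nat.zero_le _) he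
      omega
    · rcases Nat.lt_or_ge m (J c) with h4 | h4
      · rcases Nat.lt_or_ge m' (J c') with h5 | h5
        · exact hp2 c (mem_univ _) c' (mem_univ _) hcc m m' h1 h4 h0 h5 he
        · have h6 : m' = J c' := le_antisymm h3 h5
          rw [h6, b2] at he
          exact (a5 m h1 h4).2 c' he
      · have h6 : m = J c := le_antisymm h2 h4
        rw [h6, a2] at he
        rcases Nat.lt_or_ge m' (J c') with h5 | h5
        · exact (b5 m' h0 h5).2 c he.symm
        · have h7 : m' = J c' := le_antisymm h3 h5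
          rw [h7, b2] at he
          exact hcc (hz he)

/-- a leg to `z0` is given, the other legs are attached -/
theorem ext_cons {F V : Type} [Fintype F] (G : SimpleGraph V) (n : ℕ) (hn : 1 ≤ n) (J : F → ℕ)
    (hJ : ∀ f, 1 ≤ J f) (z0 : V) (z : F → V) (hz : Function.Injective z) (hz0 : ∀ f, z f ≠ z0)
    (u : V) (Z : Finset V) (q : ℕ → V) (hq0 : q 0 = u) (hqn : q n = z0)
    (hqa : ∀ m, m < n → G.Adj (q m) (q (m + 1)))
    (hqi : ∀ m m', m ≤ n → m' ≤ n → q m = q m' → m = m')
    (hqZ : ∀ m, 1 ≤ m → m < n → q m ∉ Z ∧ ∀ f, q m ≠ z f) (N : ℕ)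
    (hN : #Z + n + ∑ f, (J f + 2) + 3 ≤ N) (h : ∀ f, Rich G (J f) N u (z f)) :
    Ext G (Sum.elim (fun _ : Unit => n) J) (Sum.elim (fun _ : Unit => z0) z) u Z := by
  have hcard : #(Z ∪ (range (n + 1)).image q) + ∑ f, (J f + 2) + 1 ≤ N := by
    have e1 := card_union_le Z ((range (n + 1)).image q)
    have e2 : #((range (n + 1)).image q) ≤ n + 1 := by
      refine card_image_le.trans ?_
      rw [card_range]
    omega
  obtain ⟨x, hx1, hx2, hx3, hx4⟩ := ext_of_rich G J hJ z hz u _ N hcard h
  have hq_mem : ∀ m, m ≤ n → q m ∈ Z ∪ (range (n + 1)).image q := fun m hm =>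
    mem_union_right _ (mem_image_of_mem _ (mem_range.2 (Nat.lt_succ_of_le hm)))
  -- the legs of `x` and `q` meet only in the centre
  have hdisj : ∀ f m m', m ≤ n → m' ≤ J f → (1 ≤ m ∨ 1 ≤ m') → q m ≠ x.2 f m' := by
    intro f m m' hm hm' h1 he
    rcases Nat.eq_zero_or_pos m' with h0 | h0
    · subst h0
      rw [hx2.start f, hx1, ← hq0] at he
      have := hqi m 0 hm (Nat.zero_le _) he
      omega
    · rcases Nat.lt_or_ge m' (J f) with h2 | h2
      · refine hx4 f m' h0 h2 ?_
        rw [← he]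
        exact hq_mem m hm
      · have h3 : m' = J f := le_antisymm hm' h2
        rcases Nat.eq_zero_or_pos m with h4 | h4
        · subst h4
          rw [hq0, ← hx1] at he
          exact hx2.ne_centre h0 hm' he.symm
        · rw [h3, hx3 f] at he
          rcases Nat.lt_or_ge m n with h5 | h5
          · exact (hqZ m h4 h5).2 f he
          · have h6 : m = n := le_antisymm hm h5
            rw [h6, hqn] at he
            exact hz0 f he.symm
  refine ⟨(u, Sum.elim (fun _ : Unit => q) x.2), rfl, ⟨?_, ?_, ?_⟩, ?_, ?_⟩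
  · rintro (c | c)
    · exact hq0
    · change x.2 c 0 = u
      rw [hx2.start c, hx1]
  · rintro (c | c) m hm
    · exact hqa m hm
    · exact hx2.adj c m hm
  · rintro (c | c) (c' | c') m m' h1 h2 h3 he
    · refine ⟨rfl, hqi m m' h2 h3 he⟩
    · exact absurd he (hdisj c' m m' h2 h3 (Or.inl h1))
    · exact absurd he.symm (hdisj c m' m h3 h2 (Or.inr h1))
    · obtain ⟨e1, e2⟩ := hx2.inj c c' m m' h1 h2 h3 he
      exact ⟨by rw [e1], e2⟩
  · rintro (c | c)
    · exact hqn
    · exact hx3 c
  · rintro (c | c) m h1 h2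
    · exact (hqZ m h1 h2).1
    · intro h3
      exact hx4 c m h1 h2 (mem_union_left _ h3)

theorem flex_of_short {ι F V : Type} [Fintype ι] [Fintype F] (G : SimpleGraph V) (j : ι → ℕ)
    (J : F → ℕ) (hj : ∀ c, 1 ≤ j c) (hJ : ∀ f, 1 ≤ J f) (X : ι → V) (z : F → V) (Y : Finset V)
    (hz : ∀ f, z f ∈ Y) (hX : ∀ c, X c ∉ Y) (N : ℕ)
    (h : ∀ Z : Finset V, #Z ≤ N → (∀ c, X c ∉ Z) → ∃ x : Obj ι V, Sp G j x ∧
      (∀ c, x.2 c (j c) = X c) ∧ x.1 ∉ Z ∧ x.1 ∉ Y ∧
      (∀ c m, 1 ≤ m → m < j c → x.2 c m ∉ Z ∧ x.2 c m ∉ Y) ∧ Ext G J z x.1 (Z ∪ vs j x)) :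
    Flex G (Sum.elim j J) N (Sum.elim X z) := by
  intro Z hZ hXZ
  obtain ⟨x, hx1, hx2, hx3, hx4, hx5, y, hy1, hy2, hy3, hy4⟩ := h Z hZ fun c => hXZ (Sum.inl c)
  -- no vertex of a leg of `x` lies in `Y`
  have hxY : ∀ c m, m ≤ j c → x.2 c m ∉ Y := by
    intro c m hm
    rcases Nat.eq_zero_or_pos m with h0 | h0
    · subst h0
      rw [hx1.start c]
      exact hx4
    · rcases Nat.lt_or_ge m (j c) with h1 | h1
      · exact (hx5 c m h0 h1).2
      · have h2 : m = j c := le_antisymm hm h1
        rw [h2, hx2 c]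
        exact hX c
  have hdisj : ∀ c f m m', m ≤ j c → m' ≤ J f → (1 ≤ m ∨ 1 ≤ m') → x.2 c m ≠ y.2 f m' := by
    intro c f m m' hm hm' h1 he
    rcases Nat.eq_zero_or_pos m' with h0 | h0
    · subst h0
      rw [hy2.start f, hy1] at he
      exact hx1.ne_centre (by omega) hm he
    · rcases Nat.lt_or_ge m' (J f) with h2 | h2
      · refine hy4 f m' h0 h2 ?_
        rw [← he]
        refine mem_union_right _ ?_
        rw [mem_vs]
        exact Or.inr ⟨c, m, hm, rfl⟩
      · have h3 : m' = J f := le_antisymm hm' h2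
        rw [h3, hy3 f] at he
        refine hxY c m hm ?_
        rw [he]
        exact hz f
  refine ⟨(x.1, Sum.elim x.2 y.2), ⟨?_, ?_, ?_⟩, ?_, hx3, ?_⟩
  · rintro (c | c)
    · exact hx1.start c
    · change y.2 c 0 = x.1
      rw [hy2.start c, hy1]
  · rintro (c | c) m hm
    · exact hx1.adj c m hm
    · exact hy2.adj c m hm
  · rintro (c | c) (c' | c') m m' h1 h2 h3 he
    · obtain ⟨e1, e2⟩ := hx1.inj c c' m m' h1 h2 h3 he
      exact ⟨by rw [e1], e2⟩
    · exact absurd he (hdisj c c' m m' h2 h3 (Or.inl h1))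
    · exact absurd he.symm (hdisj c' c m' m h3 h2 (Or.inr h1))
    · obtain ⟨e1, e2⟩ := hy2.inj c c' m m' h1 h2 h3 he
      exact ⟨by rw [e1], e2⟩
  · rintro (c | c)
    · exact hx2 c
    · exact hy3 c
  · rintro (c | c) m h1 h2
    · exact (hx5 c m h1 h2).1
    · intro h3
      exact hy4 c m h1 h2 (mem_union_left _ h3)

theorem Flex.congr {ι ι' V : Type} {G : SimpleGraph V} {j : ι → ℕ} {N : ℕ} {X : ι → V}
    (h : Flex G j N X) (e : ι' ≃ ι) : Flex G (fun c => j (e c)) N (fun c => X (e c)) := by
  intro Z hZ hXZ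
  obtain ⟨x, hx1, hx2, hx3, hx4⟩ := h Z hZ (fun c => by
    have h1 : X (e (e.symm c)) ∉ Z := hXZ (e.symm c)
    rwa [e.apply_symm_apply] at h1)
  refine ⟨(x.1, fun c => x.2 (e c)), ⟨fun c => hx1.start (e c), fun c m hm =>
    hx1.adj (e c) m hm, ?_⟩, fun c => hx2 (e c), hx3, fun c m h1 h2 => hx4 (e c) m h1 h2⟩
  intro c c' m m' h1 h2 h3 he
  obtain ⟨e1, e2⟩ := hx1.inj (e c) (e c') m m' h1 h2 h3 he
  exact ⟨e.injective e1, e2⟩

end Pool.Agent.Helper14.SP
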