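import Pool.Agent.Helper14.SP2.St.L

/-!
# Project SP2, piece C9: the light world
-/

set_option autoImplicit false

namespace Pool.Agent.Helper14.SP

open Finset Classical
open Pool.Agent.Helper97.RE (IsPath Rich PP Clean Cb)

theorem world_light {ι : Type} [Fintype ι] [Nonempty ι] (j : ι → ℕ) (N0 K L : ℕ)
    (hj : ∀ c, 1 ≤ j c) (hL : ∀ c, j c ≤ L) (hL2 : 2 ≤ L) : ∃ E' : ℕ, ∀ R : ℕ → ℕ,
    ∃ A : ℕ, ∀ (V : Type) [Fintype V] [Nonempty V] (G : SimpleGraph V) (d : ℕ),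
    (∀ w, d ≤ G.degree w ∧ G.degree w ≤ K * d) →
    A * Fintype.card V ^ (Fintype.card ι - 1) ≤ d ^ (∑ c, j c) →
    Rare G E' d L R → ∃ X : ι → V, Flex G j N0 X := by
  obtain ⟨E', hE'⟩ := many_good j hj L hL (Or.inl hL2) K 2
  refine ⟨E', fun R => ?_⟩
  obtain ⟨d0, hd0⟩ := hE' 0
  obtain ⟨A1, hA1⟩ := thmL j hj L hL K 2 N0 R
  refine ⟨2 * A1 + (max A1 d0) ^ (∑ c, j c), ?_⟩
  intro V _ _ G d hdeg hA hR
  have hn : 1 ≤ Fintype.card V := Fintype.card_pos
  have hS : 1 ≤ ∑ c, j c := by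
    obtain ⟨c⟩ := ‹Nonempty ι›
    exact (hj c).trans (single_le_sum (f := j) (fun _ _ => Nat.zero_le _) (mem_univ c))
  have hnp : 1 ≤ Fintype.card V ^ (Fintype.card ι - 1) := Nat.one_le_pow _ _ hn
  have hmax : max A1 d0 ≤ d := by
    have h1 : (max A1 d0) ^ (∑ c, j c) ≤ d ^ (∑ c, j c) := by
      refine le_trans ?_ hA
      calc (max A1 d0) ^ (∑ c, j c) ≤ 2 * A1 + (max A1 d0) ^ (∑ c, j c) := Nat.le_add_left _ _
        _ ≤ (2 * A1 + (max A1 d0) ^ (∑ c, j c)) * Fintype.card V ^ (Fintype.card ι - 1) :=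
          Nat.le_mul_of_pos_right _ hnp
    exact (Nat.pow_le_pow_iff_left (by omega)).1 h1
  have hA1d : A1 ≤ d := (le_max_left _ _).trans hmax
  have hd0d : d0 ≤ d := (le_max_right _ _).trans hmax
  obtain ⟨Bad, hBad, hu⟩ := hd0 G d R hdeg hd0d hR
  set C : Finset V := univ \ Bad with hC
  set Ω : Finset (Obj ι V) := (WK G j).filter fun x => Good G L R j x ∧ x.1 ∈ C with hΩ
  have hCcard : Fintype.card V ≤ 2 * #C := by
    have h1 : #C = Fintype.card V - #Bad := by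
      rw [hC, card_sdiff_of_subset (subset_univ _), card_univ]
    have h2 : #Bad ≤ Fintype.card V := card_le_univ _
    omega
  have hcount : #C * d ^ (∑ c, j c) ≤ 2 * #Ω := by
    have h1 : #Ω = ∑ u ∈ C, #{x ∈ Ω | x.1 = u} :=
      card_eq_sum_card_fiberwise fun x hx => (mem_filter.1 hx).2.2
    rw [h1, mul_sum, ← smul_eq_mul, ← sum_const]
    refine sum_le_sum fun u huC => ?_
    have hub : u ∉ Bad := (mem_sdiff.1 huC).2
    refine (hu u hub ∅ (by simp) (notMem_empty _)).trans (Nat.mul_le_mul_left 2 ?_)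
    refine card_le_card fun x hx => ?_
    rw [mem_filter] at hx
    obtain ⟨hx1, hx2, hx3, -⟩ := hx
    rw [mem_filter, hΩ, mem_filter]
    exact ⟨⟨hx1, hx2, hx3 ▸ huC⟩, hx3⟩
  have hbig : A1 * Fintype.card V ^ (Fintype.card ι) ≤ #C * d ^ (∑ c, j c) := by
    have hι : Fintype.card ι = (Fintype.card ι - 1) + 1 := by
      have : 0 < Fintype.card ι := Fintype.card_pos
      omega
    calc A1 * Fintype.card V ^ (Fintype.card ι)
        = Fintype.card V * (A1 * Fintype.card V ^ (Fintype.card ι - 1)) := by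
          conv_lhs => rw [hι, pow_succ]
          ring
      _ ≤ (2 * #C) * (A1 * Fintype.card V ^ (Fintype.card ι - 1)) :=
          Nat.mul_le_mul_right _ hCcard
      _ = #C * (2 * A1 * Fintype.card V ^ (Fintype.card ι - 1)) := by ring
      _ ≤ #C * ((2 * A1 + (max A1 d0) ^ (∑ c, j c)) * Fintype.card V ^ (Fintype.card ι - 1)) :=
          Nat.mul_le_mul_left _ (Nat.mul_le_mul_right _ (Nat.le_add_right _ _))
      _ ≤ #C * d ^ (∑ c, j c) := Nat.mul_le_mul_left _ hA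
  obtain ⟨X, -, hX⟩ := hA1 G d (fun w => (hdeg w).2) hA1d C ∅ Ω (fun _ _ => True)
    (fun x hx => ⟨(mem_filter.1 hx).2.1, (mem_filter.1 hx).2.2, notMem_empty _,
      fun _ _ _ => notMem_empty _⟩) hcount hbig (fun _ _ _ _ _ => trivial)
    (fun _ _ _ _ => trivial)
  refine ⟨X, fun Z hZ hXZ => ?_⟩
  obtain ⟨x, h1, h2, h3, -, h5, -⟩ := hX Z hZ hXZ
  exact ⟨x, h1, h2, h3, fun c m hm hm' => (h5 c m hm hm').1⟩

end Pool.Agent.Helper14.SP
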