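import Pool.Agent.Helper14.SP2.St.C

/-!
# Project SP2, piece C6: a common base for several hubs
-/

set_option autoImplicit false

namespace Pool.Agent.Helper14.SP

open Finset Classical
open Pool.Agent.Helper97.RE (IsPath Rich PP Clean Cb)

namespace CBase

/-- paths with a given first vertex -/
theorem card_paths_first {V : Type} [Fintype V] (G : SimpleGraph V) (Δ : ℕ)
    (hΔ : ∀ w, G.degree w ≤ Δ) (n : ℕ) (x : V) :
    #{p ∈ PP G n | p 0 = x} ≤ Δ ^ n := by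
  have h := Pool.Agent.Helper97.RE.card_window G Δ hΔ 0 {fun _ => x} n 0 (by omega)
  simp only [Nat.sub_zero, card_singleton, mul_one] at h
  refine le_trans (card_le_card ?_) h
  intro p hp
  rw [mem_filter] at hp ⊢
  refine ⟨hp.1, ?_⟩
  rw [mem_singleton]
  funext i
  obtain rfl : i = 0 := Fin.ext (by omega)
  rw [Pool.Agent.Helper97.RE.win_zero]
  exact hp.2

theorem card_paths_end {V : Type} [Fintype V] (G : SimpleGraph V) (Δ : ℕ)
    (hΔ : ∀ w, G.degree w ≤ Δ) (n : ℕ) (B : Finset V) :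
    #{p ∈ PP G n | p (Fin.last n) ∈ B} ≤ #B * Δ ^ n := by
  have h : ({p ∈ PP G n | p (Fin.last n) ∈ B} : Finset (Fin (n + 1) → V)) ⊆
      B.biUnion (fun y => {p ∈ PP G n | p (Fin.last n) = y}) := by
    intro p hp
    rw [mem_filter] at hp
    rw [mem_biUnion]
    exact ⟨_, hp.2, mem_filter.2 ⟨hp.1, rfl⟩⟩
  refine (card_le_card h).trans (card_biUnion_le.trans ?_)
  refine (sum_le_card_nsmul _ _ (Δ ^ n) ?_).trans ?_
  · intro y _
    exact Pool.Agent.Helper97.RE.card_paths_last G Δ hΔ n y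
  · rw [smul_eq_mul]

/-- clean paths with given ends -/
theorem cnt_le' {V : Type} [Fintype V] (G : SimpleGraph V) (L : ℕ) (R : ℕ → ℕ) (n : ℕ)
    (hn : n ≤ L) (x y : V) (S : Finset (Fin (n + 1) → V))
    (hS : ∀ p ∈ S, IsPath G p ∧ Clean G L R p ∧ p 0 = x ∧ p (Fin.last n) = y) :
    #S ≤ Cb R n := by
  refine le_trans ?_ (Pool.Agent.Helper97.RE.cnt_le G L R n hn x y)
  unfold Pool.Agent.Helper97.RE.cnt
  refine card_le_card ?_
  intro p hp
  rw [mem_filter, Pool.Agent.Helper97.RE.mem_PP]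
  exact hS p hp

/-- the clean tails -/
noncomputable def Q {V : Type} [Fintype V] (G : SimpleGraph V) (R : ℕ → ℕ) (L n : ℕ)
    (Bad : Finset V) (v : V) : Finset (Fin (n + 1) → V) :=
  {q ∈ PP G n | q 0 = v ∧ Clean G L R q ∧ q (Fin.last n) ∉ Bad}

theorem mem_Q {V : Type} [Fintype V] {G : SimpleGraph V} {R : ℕ → ℕ} {L n : ℕ}
    {Bad : Finset V} {v : V} {q : Fin (n + 1) → V} :
    q ∈ Q G R L n Bad v ↔ IsPath G q ∧ q 0 = v ∧ Clean G L R q ∧ q (Fin.last n) ∉ Bad := by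
  unfold Q
  rw [mem_filter, Pool.Agent.Helper97.RE.mem_PP]

/-- the number of good paths through `v` -/
noncomputable def gv {V : Type} [Fintype V] (G : SimpleGraph V) (R : ℕ → ℕ) (L n r : ℕ)
    (Bad : Finset V) (v : V) : ℕ :=
  #{q ∈ (G.neighborFinset v) ×ˢ Q G R L n Bad v | Rich G (n + 1) r q.1 (q.2 (Fin.last n))}

/-- step 1: the sum of `gv` is large -/
theorem sum_gv {V : Type} [Fintype V] (G : SimpleGraph V) (R : ℕ → ℕ) (n r K d E : ℕ)
    (hK : 1 ≤ K) (hΔ : ∀ w, G.degree w ≤ K * d) (Bad : Finset V)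
    (E' : ℕ) (hE' : E' = 2 * E * ((n + 1) * (n + 1) * K ^ (n + 1) + K ^ (n + 1)) + 1)
    (hrare : Rare G E' d n R) (hBad : E' * #Bad ≤ Fintype.card V)
    (hmany : Fintype.card V * d ^ (n + 1) <
        E * #{p ∈ PP G (n + 1) | Rich G (n + 1) r (p 0) (p (Fin.last (n + 1)))}) :
    Fintype.card V * d ^ (n + 1) ≤ 2 * E * ∑ v, gv G R n n r Bad v := by
  -- unclean tails
  have h1 : E' * #{q ∈ PP G n | ¬ Clean G n R q} ≤
      (n + 1) * (n + 1) * K ^ n * (Fintype.card V * d ^ n) :=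
    Pool.Agent.Helper97.RE.unclean_count G n K d E' R hK hΔ hrare n
  obtain ⟨U, hU⟩ : ∃ U : Finset (Fin (n + 1) → V), U = {q ∈ PP G n | ¬ Clean G n R q} := ⟨_, rfl⟩
  rw [← hU] at h1
  have h2 := Pool.Agent.Helper97.RE.card_ext_first G (K * d) hΔ n U
  have h3 := card_paths_end G (K * d) hΔ (n + 1) Bad
  -- the good ones
  obtain ⟨Gd, hGd⟩ : ∃ Gd : Finset (Fin (n + 1 + 1) → V), Gd = (PP G (n + 1)).filter
      (fun p : Fin (n + 1 + 1) → V => Rich G (n + 1) r (p 0) (p (Fin.last (n + 1))) ∧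
        Clean G n R (Fin.tail p : Fin (n + 1) → V) ∧ p (Fin.last (n + 1)) ∉ Bad) := ⟨_, rfl⟩
  have h4 : #{p ∈ PP G (n + 1) | Rich G (n + 1) r (p 0) (p (Fin.last (n + 1)))} ≤
      #Gd + #{p ∈ PP G (n + 1) | (Fin.tail p : Fin (n + 1) → V) ∈ U} +
        #{p ∈ PP G (n + 1) | p (Fin.last (n + 1)) ∈ Bad} := by
    refine le_trans (card_le_card ?_) ((card_union_le _ _).trans
      (Nat.add_le_add_right (card_union_le _ _) _))
    intro p hp
    rw [mem_filter] at hp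
    rw [mem_union, mem_union, mem_filter, mem_filter, hGd, mem_filter]
    by_cases c1 : p (Fin.last (n + 1)) ∈ Bad
    · exact Or.inr ⟨hp.1, c1⟩
    · by_cases c2 : Clean G n R (Fin.tail p : Fin (n + 1) → V)
      · exact Or.inl (Or.inl ⟨hp.1, hp.2, c2, c1⟩)
      · refine Or.inl (Or.inr ⟨hp.1, ?_⟩)
        rw [hU, mem_filter]
        exact ⟨Pool.Agent.Helper97.RE.mem_PP.2 (Pool.Agent.Helper97.RE.mem_PP.1 hp.1).tail, c2⟩
  -- the good ones are counted by `gv`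
  have h5 : #Gd ≤ ∑ v, gv G R n n r Bad v := by
    rw [card_eq_sum_card_fiberwise (f := fun p : Fin (n + 1 + 1) → V => (Fin.tail p : Fin (n + 1) → V) 0)
      (t := univ) (fun _ _ => mem_coe.2 (mem_univ _))]
    refine sum_le_sum fun v _ => ?_
    unfold gv
    refine card_le_card_of_injOn (fun p => (p 0, (Fin.tail p : Fin (n + 1) → V))) ?_ ?_
    · intro p hp
      rw [mem_coe, mem_filter, hGd, mem_filter, Pool.Agent.Helper97.RE.mem_PP] at hp
      obtain ⟨⟨hp1, hp2, hp3, hp4⟩, hp5⟩ := hp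
      rw [mem_coe, mem_filter, mem_product, SimpleGraph.mem_neighborFinset, mem_Q]
      have e : (Fin.tail p : Fin (n + 1) → V) (Fin.last n) = p (Fin.last (n + 1)) := by
        simp [Fin.tail]
      refine ⟨⟨?_, hp1.tail, hp5, hp3, ?_⟩, ?_⟩
      · have := hp1.2 0
        rw [← hp5]
        exact this.symm
      · change (Fin.tail p : Fin (n + 1) → V) (Fin.last n) ∉ Bad
        rw [e]; exact hp4
      · change Rich G (n + 1) r (p 0) ((Fin.tail p : Fin (n + 1) → V) (Fin.last n))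
        rw [e]; exact hp2
    · intro p _ p' _ h
      rw [Prod.mk.injEq] at h
      rw [← Fin.cons_self_tail p, ← Fin.cons_self_tail p', h.1, h.2]
  -- arithmetic
  obtain ⟨X, hX⟩ : ∃ X, X = Fintype.card V * d ^ (n + 1) := ⟨_, rfl⟩
  obtain ⟨g, hg⟩ : ∃ g, g = ∑ v, gv G R n n r Bad v := ⟨_, rfl⟩
  obtain ⟨a, ha⟩ : ∃ a, a = #{p ∈ PP G (n + 1) | (Fin.tail p : Fin (n + 1) → V) ∈ U} := ⟨_, rfl⟩
  obtain ⟨b, hb⟩ : ∃ b, b = #{p ∈ PP G (n + 1) | p (Fin.last (n + 1)) ∈ Bad} := ⟨_, rfl⟩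
  obtain ⟨t, ht⟩ : ∃ t, t = #{p ∈ PP G (n + 1) | Rich G (n + 1) r (p 0) (p (Fin.last (n + 1)))} :=
    ⟨_, rfl⟩
  rw [← ha] at h2 h4
  rw [← hb] at h3 h4
  rw [← ht] at h4 hmany
  rw [← hg] at h5 ⊢
  rw [← hX] at hmany ⊢
  have ha' : E' * a ≤ (n + 1) * (n + 1) * K ^ (n + 1) * X := by
    calc E' * a ≤ E' * (K * d * #U) := Nat.mul_le_mul_left _ h2
      _ = K * d * (E' * #U) := by ring
      _ ≤ K * d * ((n + 1) * (n + 1) * K ^ n * (Fintype.card V * d ^ n)) := Nat.mul_le_mul_left _ h1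
      _ = (n + 1) * (n + 1) * K ^ (n + 1) * X := by rw [hX]; ring
  have hb' : E' * b ≤ K ^ (n + 1) * X := by
    calc E' * b ≤ E' * (#Bad * (K * d) ^ (n + 1)) := Nat.mul_le_mul_left _ h3
      _ = (E' * #Bad) * (K * d) ^ (n + 1) := by ring
      _ ≤ Fintype.card V * (K * d) ^ (n + 1) := Nat.mul_le_mul_right _ hBad
      _ = K ^ (n + 1) * X := by rw [hX, mul_pow]; ring
  have hE1 : 1 ≤ E' := by omega
  have hab : E' * (2 * E * (a + b)) ≤ E' * X := by
    calc E' * (2 * E * (a + b)) = 2 * E * (E' * a + E' * b) := by ring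
      _ ≤ 2 * E * ((n + 1) * (n + 1) * K ^ (n + 1) * X + K ^ (n + 1) * X) :=
          Nat.mul_le_mul_left _ (Nat.add_le_add ha' hb')
      _ = (2 * E * ((n + 1) * (n + 1) * K ^ (n + 1) + K ^ (n + 1))) * X := by ring
      _ ≤ E' * X := Nat.mul_le_mul_right _ (by omega)
  have hab' := Nat.le_of_mul_le_mul_left hab hE1
  have h6 : X < E * (g + a + b) := hmany.trans_le (Nat.mul_le_mul_left _ (by omega))
  have h7 : 2 * (E * (g + a + b)) = 2 * E * g + 2 * E * (a + b) := by ring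
  omega

/-- step 2: many `v` have large `gv` -/
theorem many_v {V : Type} [Fintype V] (G : SimpleGraph V) (R : ℕ → ℕ) (n r K d E : ℕ)
    (hd : 1 ≤ d) (hΔ : ∀ w, G.degree w ≤ K * d) (Bad : Finset V)
    (h : Fintype.card V * d ^ (n + 1) ≤ 2 * E * ∑ v, gv G R n n r Bad v) :
    Fintype.card V ≤ 4 * E * K ^ (n + 1) *
      #{v : V | d ^ (n + 1) ≤ 4 * E * gv G R n n r Bad v} := by
  have hg : ∀ v, gv G R n n r Bad v ≤ (K * d) ^ (n + 1) := by
    intro v
    unfold gv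
    refine (card_filter_le _ _).trans ?_
    rw [card_product, pow_succ']
    refine Nat.mul_le_mul ?_ ?_
    · rw [SimpleGraph.card_neighborFinset_eq_degree]
      exact hΔ v
    · refine le_trans (card_le_card ?_) (card_paths_first G (K * d) hΔ n v)
      intro q hq
      rw [mem_Q] at hq
      rw [mem_filter]
      exact ⟨Pool.Agent.Helper97.RE.mem_PP.2 hq.1, hq.2.1⟩
  have h1 := sum_filter_add_sum_filter_not (univ : Finset V)
    (fun v => d ^ (n + 1) ≤ 4 * E * gv G R n n r Bad v) (fun v => 4 * E * gv G R n n r Bad v)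
  have h2 : ∑ v with ¬ d ^ (n + 1) ≤ 4 * E * gv G R n n r Bad v, 4 * E * gv G R n n r Bad v ≤
      Fintype.card V * d ^ (n + 1) := by
    refine (sum_le_card_nsmul _ _ (d ^ (n + 1)) ?_).trans ?_
    · intro v hv
      rw [mem_filter] at hv
      exact (not_le.1 hv.2).le
    · rw [smul_eq_mul]
      exact Nat.mul_le_mul_right _ (card_le_univ _)
  have h3 : ∑ v with d ^ (n + 1) ≤ 4 * E * gv G R n n r Bad v, 4 * E * gv G R n n r Bad v ≤
      #{v : V | d ^ (n + 1) ≤ 4 * E * gv G R n n r Bad v} * (4 * E * (K * d) ^ (n + 1)) := by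
    refine (sum_le_card_nsmul _ _ (4 * E * (K * d) ^ (n + 1)) ?_).trans ?_
    · intro v _
      exact Nat.mul_le_mul_left _ (hg v)
    · rw [smul_eq_mul]
  have h4 : ∑ v, 4 * E * gv G R n n r Bad v = 2 * (2 * E * ∑ v, gv G R n n r Bad v) := by
    rw [← mul_sum]; ring
  rw [h4] at h1
  have h5 : Fintype.card V * d ^ (n + 1) ≤
      #{v : V | d ^ (n + 1) ≤ 4 * E * gv G R n n r Bad v} * (4 * E * (K * d) ^ (n + 1)) := by
    omega
  have h6 : #{v : V | d ^ (n + 1) ≤ 4 * E * gv G R n n r Bad v} * (4 * E * (K * d) ^ (n + 1)) =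
      4 * E * K ^ (n + 1) * #{v : V | d ^ (n + 1) ≤ 4 * E * gv G R n n r Bad v} * d ^ (n + 1) := by
    rw [mul_pow]; ring
  rw [h6] at h5
  exact Nat.le_of_mul_le_mul_right h5 (pow_pos hd _)

end CBase

open CBase in
theorem common_base' (F : Type) [Fintype F] (K h E m : ℕ) (hK : 1 ≤ K) (hh : 1 ≤ h)
    (hm : 1 ≤ m) : ∃ E' : ℕ, ∀ (R : ℕ → ℕ) (D N : ℕ), ∃ E2 r d0 : ℕ,
    ∀ {V : Type} [Fintype V] [Nonempty V] (G : SimpleGraph V) (d : ℕ),
      (∀ w, d ≤ G.degree w ∧ G.degree w ≤ K * d) → d0 ≤ d → Rare G E' d (h + 1) R →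
      ∀ Bad : Finset V, E' * #Bad ≤ Fintype.card V →
      Fintype.card V * d ^ (h + 2) <
        E * #{p ∈ PP G (h + 2) | Rich G (h + 2) r (p 0) (p (Fin.last (h + 2)))} →
      ∃ (v : F → V) (b : F → Fin m → V) (W A : F → Finset V) (C : Finset V),
        Function.Injective v ∧ (∀ f, Hub G (h + 2) N D m (v f) (b f) (W f) (A f)) ∧
        (∀ f, C ⊆ W f) ∧ Disjoint C Bad ∧ d ^ h ≤ E2 * #C := by
  obtain ⟨E1, hub1⟩ := hub K (h + 1) (4 * E) m (by omega) hm
  obtain ⟨E3, hE3⟩ : ∃ E3, E3 = 4 * E * K ^ (h + 2) * E1 := ⟨_, rfl⟩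
  obtain ⟨E4, d1, pick1⟩ := pick F K (K ^ h) E3
  refine ⟨2 * E * ((h + 1 + 1) * (h + 1 + 1) * K ^ (h + 1 + 1) + K ^ (h + 1 + 1)) + 1, ?_⟩
  intro R D N
  obtain ⟨r, d2, hub2⟩ := hub1 (Cb R (h + 1)) D N
  refine ⟨E4 * Cb R h, r, max (max d1 d2) 1, ?_⟩
  intro V _ _ G d hdeg hd0 hrare Bad hBad hmany
  have hd1 : d1 ≤ d := le_trans (le_trans (le_max_left _ _) (le_max_left _ _)) hd0
  have hd2 : d2 ≤ d := le_trans (le_trans (le_max_right _ _) (le_max_left _ _)) hd0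
  have hd3 : 1 ≤ d := le_trans (le_max_right _ _) hd0
  have hΔ : ∀ w, G.degree w ≤ K * d := fun w => (hdeg w).2
  have hs1 := sum_gv G R (h + 1) r K d E hK hΔ Bad _ rfl hrare hBad hmany
  have hs2 := many_v G R (h + 1) r K d E hd3 hΔ Bad hs1
  obtain ⟨V1, hV1⟩ : ∃ V1 : Finset V,
    V1 = ({v : V | d ^ (h + 1 + 1) ≤ 4 * E * gv G R (h + 1) (h + 1) r Bad v} : Finset V) := ⟨_, rfl⟩
  rw [← hV1] at hs2
  -- the hubs
  have hhub : ∀ v : V, ∃ (b : Fin m → V) (W A : Finset V), v ∈ V1 →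
      Hub G (h + 2) N D m v b W A ∧
        d ^ (h + 1) ≤ E1 * #{p ∈ Q G R (h + 1) (h + 1) Bad v | p (Fin.last (h + 1)) ∈ W} := by
    intro v
    by_cases hv : v ∈ V1
    · rw [hV1, mem_filter] at hv
      obtain ⟨b, W, A, hb1, hb2⟩ := hub2 G d hΔ hd2 v (Q G R (h + 1) (h + 1) Bad v)
        (fun p hp => ⟨(mem_Q.1 hp).1, (mem_Q.1 hp).2.1⟩)
        (fun w => cnt_le' G (h + 1) R (h + 1) le_rfl v w _ (fun p hp => by
          rw [mem_filter, mem_Q] at hp
          exact ⟨hp.1.1, hp.1.2.2.1, hp.1.2.1, hp.2⟩)) hv.2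
      exact ⟨b, W, A, fun _ => ⟨hb1, hb2⟩⟩
    · exact ⟨fun _ => v, ∅, ∅, fun h => absurd h hv⟩
  choose b W A hH using hhub
  -- the set of pairs
  obtain ⟨T, hT⟩ : ∃ T : Finset (V × (Fin (h + 1 + 1) → V)), T = (V1 ×ˢ PP G (h + 1)).filter
      (fun q => q.2 ∈ Q G R (h + 1) (h + 1) Bad q.1 ∧ q.2 (Fin.last (h + 1)) ∈ W q.1) := ⟨_, rfl⟩
  have hT1 : #V1 * d ^ (h + 1) ≤ E1 * #T := by
    rw [card_eq_sum_card_fiberwise (f := fun q : V × (Fin (h + 1 + 1) → V) => q.1) (s := T)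
      (t := V1) (fun q hq => by
        rw [mem_coe, hT, mem_filter, mem_product] at hq
        exact mem_coe.2 hq.1.1), mul_sum]
    rw [← smul_eq_mul, ← sum_const]
    refine sum_le_sum fun v hv => ?_
    refine (hH v hv).2.trans (Nat.mul_le_mul_left _ ?_)
    refine card_le_card_of_injOn (fun p => (v, p)) ?_ ?_
    · intro p hp
      rw [mem_coe, mem_filter] at hp
      rw [mem_coe, mem_filter, hT, mem_filter, mem_product]
      exact ⟨⟨⟨hv, Pool.Agent.Helper97.RE.mem_PP.2 (mem_Q.1 hp.1).1⟩, hp.1, hp.2⟩, rfl⟩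
    · intro p _ p' _ hpp
      exact (Prod.mk.injEq _ _ _ _ ▸ hpp).2
  have hT2 : Fintype.card V * d ^ (h + 1) ≤ E3 * #T := by
    calc Fintype.card V * d ^ (h + 1) ≤ (4 * E * K ^ (h + 2) * #V1) * d ^ (h + 1) :=
          Nat.mul_le_mul_right _ hs2
      _ = (4 * E * K ^ (h + 2)) * (#V1 * d ^ (h + 1)) := by ring
      _ ≤ (4 * E * K ^ (h + 2)) * (E1 * #T) := Nat.mul_le_mul_left _ hT1
      _ = E3 * #T := by rw [hE3]; ring
  -- pigeonhole on the second vertex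
  have hx : ∃ x : V, d ^ (h + 1) ≤ E3 * #{q ∈ T | q.2 1 = x} := by
    by_contra hcon
    push Not at hcon
    have h1 : E3 * #T = ∑ x : V, E3 * #{q ∈ T | q.2 1 = x} := by
      rw [card_eq_sum_card_fiberwise (f := fun q : V × (Fin (h + 1 + 1) → V) => q.2 1) (s := T)
        (t := univ) (fun _ _ => mem_coe.2 (mem_univ _)), mul_sum]
    have h2 : ∑ x : V, E3 * #{q ∈ T | q.2 1 = x} < ∑ _x : V, d ^ (h + 1) :=
      sum_lt_sum_of_nonempty univ_nonempty fun x _ => hcon x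
    rw [sum_const, card_univ, smul_eq_mul] at h2
    omega
  obtain ⟨x, hx⟩ := hx
  -- the picked vertices
  obtain ⟨rel, hrel⟩ : ∃ rel : V → (Fin (h + 1) → V) → Prop, rel = fun v p =>
    v ∈ V1 ∧ p (Fin.last h) ∈ W v := ⟨_, rfl⟩
  obtain ⟨a, ha1, ha2, ha3⟩ := pick1 (G.neighborFinset x) (Q G R (h + 1) h Bad x) rel d (d ^ h)
    hd1 (by
      rw [SimpleGraph.card_neighborFinset_eq_degree]
      exact hΔ x)
    (by
      rw [← mul_pow]
      refine le_trans (card_le_card ?_) (card_paths_first G (K * d) hΔ h x)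
      intro q hq
      rw [mem_Q] at hq
      rw [mem_filter]
      exact ⟨Pool.Agent.Helper97.RE.mem_PP.2 hq.1, hq.2.1⟩)
    (by
      rw [← pow_succ']
      refine hx.trans (Nat.mul_le_mul_left _ ?_)
      refine card_le_card_of_injOn (fun q => (q.1, (Fin.tail q.2 : Fin (h + 1) → V))) ?_ ?_
      · intro q hq
        rw [mem_coe, mem_filter, hT, mem_filter, mem_product, mem_Q] at hq
        obtain ⟨⟨⟨hq1, hq2⟩, ⟨hq3, hq4, hq5, hq6⟩, hq7⟩, hq8⟩ := hq
        have e : (Fin.tail q.2 : Fin (h + 1) → V) (Fin.last h) = q.2 (Fin.last (h + 1)) := by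
          simp [Fin.tail]
        have e0 : (Fin.tail q.2 : Fin (h + 1) → V) 0 = x := by
          rw [← hq8]
          simp [Fin.tail]
        rw [mem_coe, mem_filter, mem_product, SimpleGraph.mem_neighborFinset, mem_Q]
        refine ⟨⟨?_, hq3.tail, e0, ?_, ?_⟩, ?_⟩
        · have h1 := hq3.2 0
          rw [← hq8, ← hq4]
          exact h1.symm
        · change Clean G (h + 1) R (Fin.tail q.2 : Fin (h + 1) → V)
          rw [Pool.Agent.Helper97.RE.tail_eq_win]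
          exact hq5.win _ _ _
        · change (Fin.tail q.2 : Fin (h + 1) → V) (Fin.last h) ∉ Bad
          rw [e]; exact hq6
        · rw [hrel]
          refine ⟨hq1, ?_⟩
          change (Fin.tail q.2 : Fin (h + 1) → V) (Fin.last h) ∈ W q.1
          rw [e]; exact hq7
      · intro q hq q' hq' hqq
        rw [mem_coe, mem_filter, hT, mem_filter, mem_product, mem_Q] at hq hq'
        rw [Prod.mk.injEq] at hqq
        refine Prod.ext hqq.1 ?_
        rw [← Fin.cons_self_tail q.2, ← Fin.cons_self_tail q'.2, hq.1.2.1.2.1, hq'.1.2.1.2.1,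
          hqq.1, hqq.2])
    (Nat.one_le_pow _ _ hd3)
  refine ⟨a, fun f => b (a f), fun f => W (a f), fun f => A (a f),
    ({p ∈ Q G R (h + 1) h Bad x | ∀ i, rel (a i) p}).image (fun p => p (Fin.last h)), ha1,
    ?_, ?_, ?_, ?_⟩
  · intro f
    have hne : ({p ∈ Q G R (h + 1) h Bad x | ∀ i, rel (a i) p}).Nonempty := by
      rw [← card_pos]
      rcases Nat.eq_zero_or_pos (#{p ∈ Q G R (h + 1) h Bad x | ∀ i, rel (a i) p}) with h0 | h0
      · rw [h0, mul_zero] at ha3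
        have := Nat.one_le_pow h d hd3
        omega
      · exact h0
    obtain ⟨p, hp⟩ := hne
    rw [mem_filter] at hp
    have h1 := hp.2 f
    rw [hrel] at h1
    exact (hH (a f) h1.1).1
  · intro f u hu
    rw [mem_image] at hu
    obtain ⟨p, hp, rfl⟩ := hu
    rw [mem_filter] at hp
    have := hp.2 f
    rw [hrel] at this
    exact this.2
  · rw [Finset.disjoint_left]
    intro u hu
    rw [mem_image] at hu
    obtain ⟨p, hp, rfl⟩ := hu
    rw [mem_filter, mem_Q] at hp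
    exact hp.1.2.2.2
  · refine ha3.trans ?_
    rw [mul_assoc]
    refine Nat.mul_le_mul_left _ ?_
    refine card_le_mul_card_image _ _ ?_
    intro u _
    refine cnt_le' G (h + 1) R h (by omega) x u _ ?_
    intro p hp
    rw [mem_filter, mem_filter, mem_Q] at hp
    exact ⟨hp.1.1.1, hp.1.1.2.2.1, hp.1.1.2.1, hp.2⟩

end Pool.Agent.Helper14.SP
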