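import Pool.Agent.Helper14.SP2.Defs

/-!
# Project SP2, piece A4: flexible family or cover
-/

set_option autoImplicit false

namespace Pool.Agent.Helper14.SP

open Finset Classical

theorem ff_key {ι V : Type} (i : ι → ℕ) (l : ι) {x y : Obj ι V}
    (h : tr (dn i l) x = tr (dn i l) y) (h2 : x.2 l (i l) = y.2 l (i l)) : tr i x = tr i y := by
  rw [tr_eq_iff] at h ⊢
  refine ⟨h.1, fun c m hm => ?_⟩
  by_cases hc : c = l
  · subst hc
    rcases Nat.lt_or_ge m (i c) with hlt | hge
    · refine h.2 c m ?_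
      rw [dn, Function.update_self]
      omega
    · have : m = i c := le_antisymm hm hge
      rw [this, h2]
  · refine h.2 c m ?_
    rw [dn, Function.update_of_ne hc]
    exact hm

theorem ff_stem {ι V Ξ : Type} (i : ι → ℕ) (l : ι) (N H : ℕ)
    (Ω : Finset (Obj ι V × Ξ)) (hH : ∀ y, #{ω ∈ Ω | (tr i ω.1, ω.2) = y} ≤ H)
    (S : Obj ι V × Ξ → Finset V) (hS : ∀ y, #(S y) ≤ N) :
    #{ω ∈ Ω | ω.1.2 l (i l) ∈ S (tr (dn i l) ω.1, ω.2)} ≤
      N * H * #(Ω.image fun ω => (tr (dn i l) ω.1, ω.2)) := by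
  refine card_le_mul_card_image_of_maps_to (f := fun ω => (tr (dn i l) ω.1, ω.2)) ?_ _ ?_
  · intro ω hω
    exact mem_image_of_mem _ (mem_filter.1 hω).1
  · intro y _
    have h1 : #{ω ∈ {ω ∈ Ω | ω.1.2 l (i l) ∈ S (tr (dn i l) ω.1, ω.2)} |
        (tr (dn i l) ω.1, ω.2) = y} ≤ H * #(S y) := by
      refine card_le_mul_card_image_of_maps_to (f := fun ω => ω.1.2 l (i l)) ?_ _ ?_
      · intro ω hω
        rw [mem_filter, mem_filter] at hω
        have := hω.1.2
        rw [hω.2] at this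
        exact this
      · intro v _
        rcases Finset.eq_empty_or_nonempty {ω ∈ {ω ∈ {ω ∈ Ω |
            ω.1.2 l (i l) ∈ S (tr (dn i l) ω.1, ω.2)} | (tr (dn i l) ω.1, ω.2) = y} |
            ω.1.2 l (i l) = v} with he | ⟨ω0, h0⟩
        · rw [he]
          exact Nat.zero_le _
        · refine (card_le_card ?_).trans (hH (tr i ω0.1, ω0.2))
          intro ω hω
          rw [mem_filter, mem_filter, mem_filter] at hω h0
          rw [mem_filter]
          refine ⟨hω.1.1.1, ?_⟩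
          have e1 : (tr (dn i l) ω.1, ω.2) = (tr (dn i l) ω0.1, ω0.2) := hω.1.2.trans h0.1.2.symm
          rw [Prod.mk.injEq] at e1
          rw [Prod.mk.injEq]
          exact ⟨ff_key i l e1.1 (hω.2.trans h0.2.symm), e1.2⟩
    refine h1.trans ?_
    rw [Nat.mul_comm N H]
    exact Nat.mul_le_mul_left _ (hS y)

theorem ff_cover {ι V Ξ : Type} (i j : ι → ℕ) (N : ℕ)
    (Blk : Obj ι V × Ξ → Finset V → Prop) (n : ℕ) :
    ∀ Ω : Finset (Obj ι V × Ξ), #Ω = n →
      (∀ F ⊆ Ω, F.Nonempty → ¬ ((∀ ω ∈ F, ∀ B : Finset V, #B ≤ N →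
        ∃ ω' ∈ F, ω'.2 = ω.2 ∧ ends i ω'.1 = ends i ω.1 ∧ ¬ Blk ω' B) ∧
      (∀ ω ∈ F, ∀ l, i l < j l → ∀ B : Finset V, #B ≤ N →
        ∃ ω' ∈ F, ω'.2 = ω.2 ∧ tr (dn i l) ω'.1 = tr (dn i l) ω.1 ∧ ω'.1.2 l (i l) ∉ B))) →
      ∃ (T : (ι → V) × Ξ → Finset V) (S : ι → Obj ι V × Ξ → Finset V),
        (∀ ρ, #(T ρ) ≤ N) ∧ (∀ l y, #(S l y) ≤ N) ∧
        ∀ ω ∈ Ω, Blk ω (T (ends i ω.1, ω.2)) ∨
          ∃ l, i l < j l ∧ ω.1.2 l (i l) ∈ S l (tr (dn i l) ω.1, ω.2) := by
  induction n using Nat.strong_induction_on with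
  | _ n ih =>
    intro Ω hn hbad
    rcases Finset.eq_empty_or_nonempty Ω with he | hne
    · subst he
      exact ⟨fun _ => ∅, fun _ _ => ∅, fun _ => by simp, fun _ _ => by simp, fun ω hω => by simp at hω⟩
    · have h0 := hbad Ω (Subset.refl _) hne
      rw [not_and_or] at h0
      rcases h0 with h0 | h0
      · push Not at h0
        obtain ⟨ω0, h1, B, hB, h2⟩ := h0
        set ρ : (ι → V) × Ξ := (ends i ω0.1, ω0.2) with hρ
        have hsub : Ω.filter (fun ω => (ends i ω.1, ω.2) ≠ ρ) ⊆ Ω := filter_subset _ _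
        have hlt : #(Ω.filter fun ω => (ends i ω.1, ω.2) ≠ ρ) < n := by
          rw [← hn]
          refine card_lt_card ⟨hsub, fun hc => ?_⟩
          have := (mem_filter.1 (hc h1)).2
          exact this rfl
        obtain ⟨T, S, hT, hS, hcv⟩ := ih _ hlt _ rfl
          (fun F hF hFne => hbad F (hF.trans hsub) hFne)
        refine ⟨Function.update T ρ B, S, fun ρ' => ?_, hS, fun ω hω => ?_⟩
        · by_cases hc : ρ' = ρ
          · rw [hc, Function.update_self]
            exact hB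
          · rw [Function.update_of_ne hc]
            exact hT ρ'
        · by_cases hc : (ends i ω.1, ω.2) = ρ
          · left
            rw [hc, Function.update_self]
            have hc' := hc
            rw [hρ, Prod.mk.injEq] at hc'
            exact h2 ω hω hc'.2 hc'.1
          · rw [Function.update_of_ne hc]
            exact hcv ω (mem_filter.2 ⟨hω, hc⟩)
      · push Not at h0
        obtain ⟨ω0, h1, l, hl, B, hB, h2⟩ := h0
        set ρ : Obj ι V × Ξ := (tr (dn i l) ω0.1, ω0.2) with hρ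
        have hsub : Ω.filter (fun ω => (tr (dn i l) ω.1, ω.2) ≠ ρ) ⊆ Ω := filter_subset _ _
        have hlt : #(Ω.filter fun ω => (tr (dn i l) ω.1, ω.2) ≠ ρ) < n := by
          rw [← hn]
          refine card_lt_card ⟨hsub, fun hc => ?_⟩
          have := (mem_filter.1 (hc h1)).2
          exact this rfl
        obtain ⟨T, S, hT, hS, hcv⟩ := ih _ hlt _ rfl
          (fun F hF hFne => hbad F (hF.trans hsub) hFne)
        refine ⟨T, Function.update S l (Function.update (S l) ρ B), hT, fun l' y => ?_,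
          fun ω hω => ?_⟩
        · by_cases hc : l' = l
          · rw [hc, Function.update_self]
            by_cases hy : y = ρ
            · rw [hy, Function.update_self]
              exact hB
            · rw [Function.update_of_ne hy]
              exact hS l y
          · rw [Function.update_of_ne hc]
            exact hS l' y
        · by_cases hc : (tr (dn i l) ω.1, ω.2) = ρ
          · right
            refine ⟨l, hl, ?_⟩
            rw [Function.update_self, hc, Function.update_self]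
            have hc' := hc
            rw [hρ, Prod.mk.injEq] at hc'
            exact h2 ω hω hc'.2 hc'.1
          · rcases hcv ω (mem_filter.2 ⟨hω, hc⟩) with h3 | ⟨l', hl', h3⟩
            · exact Or.inl h3
            · right
              refine ⟨l', hl', ?_⟩
              by_cases hll : l' = l
              · subst hll
                rw [Function.update_self, Function.update_of_ne hc]
                exact h3
              · rw [Function.update_of_ne hll]
                exact h3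

theorem ff {ι V Ξ : Type} [Fintype ι] (i j : ι → ℕ) (hi : ∀ c, 1 ≤ i c) (N H : ℕ)
    (Ω : Finset (Obj ι V × Ξ)) (Blk : Obj ι V × Ξ → Finset V → Prop)
    (hcov : ∀ T : (ι → V) × Ξ → Finset V, (∀ ρ, #(T ρ) ≤ N) →
      2 * #{ω ∈ Ω | Blk ω (T (ends i ω.1, ω.2))} ≤ #Ω)
    (hH : ∀ y, #{ω ∈ Ω | (tr i ω.1, ω.2) = y} ≤ H)
    (hst : ∀ l, i l < j l →
      2 * (Fintype.card ι * (N * H * #(Ω.image fun ω => (tr (dn i l) ω.1, ω.2)))) < #Ω)
    (hne : Ω.Nonempty) :
    ∃ F ⊆ Ω, F.Nonempty ∧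
      (∀ ω ∈ F, ∀ B : Finset V, #B ≤ N →
        ∃ ω' ∈ F, ω'.2 = ω.2 ∧ ends i ω'.1 = ends i ω.1 ∧ ¬ Blk ω' B) ∧
      (∀ ω ∈ F, ∀ l, i l < j l → ∀ B : Finset V, #B ≤ N →
        ∃ ω' ∈ F, ω'.2 = ω.2 ∧ tr (dn i l) ω'.1 = tr (dn i l) ω.1 ∧ ω'.1.2 l (i l) ∉ B) := by
  by_contra hcon
  obtain ⟨T, S, hT, hS, hcv⟩ := ff_cover i j N Blk (#Ω) Ω rfl
    (fun F hF hFne hab => hcon ⟨F, hF, hFne, hab.1, hab.2⟩)
  set L : Finset ι := univ.filter fun l => i l < j l with hL
  set D : ι → Finset (Obj ι V × Ξ) := fun l =>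
    {ω ∈ Ω | ω.1.2 l (i l) ∈ S l (tr (dn i l) ω.1, ω.2)} with hD
  have h1 : Ω ⊆ {ω ∈ Ω | Blk ω (T (ends i ω.1, ω.2))} ∪ L.biUnion D := by
    intro ω hω
    rw [mem_union]
    rcases hcv ω hω with h | ⟨l, hl, h⟩
    · exact Or.inl (mem_filter.2 ⟨hω, h⟩)
    · right
      rw [mem_biUnion]
      exact ⟨l, mem_filter.2 ⟨mem_univ _, hl⟩, mem_filter.2 ⟨hω, h⟩⟩
  have h2 : #Ω ≤ #{ω ∈ Ω | Blk ω (T (ends i ω.1, ω.2))} + ∑ l ∈ L, #(D l) :=
    (card_le_card h1).trans ((card_union_le _ _).trans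
      (Nat.add_le_add_left card_biUnion_le _))
  have h3 := hcov T hT
  have h4 : ∀ l ∈ L, 2 * (Fintype.card ι * #(D l)) < #Ω := by
    intro l hl
    have hl' := (mem_filter.1 hl).2
    refine lt_of_le_of_lt ?_ (hst l hl')
    exact Nat.mul_le_mul_left _ (Nat.mul_le_mul_left _ (by
      have := ff_stem i l N H Ω (fun y => by convert hH y) (S l) (hS l)
      convert this))
  have hpos : 0 < #Ω := hne.card_pos
  rcases Finset.eq_empty_or_nonempty L with he | hLne
  · rw [he, sum_empty] at h2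
    omega
  · have h5 : 2 * (Fintype.card ι * ∑ l ∈ L, #(D l)) < Fintype.card ι * #Ω := by
      have e1 : 2 * (Fintype.card ι * ∑ l ∈ L, #(D l)) =
          ∑ l ∈ L, 2 * (Fintype.card ι * #(D l)) := by
        rw [mul_sum, mul_sum]
      rw [e1]
      refine (sum_lt_sum_of_nonempty hLne h4).trans_le ?_
      rw [sum_const, smul_eq_mul]
      exact Nat.mul_le_mul_right _ (card_le_univ L)
    have hcι : 0 < Fintype.card ι := hLne.card_pos.trans_le (card_le_univ L)
    have h6 : 2 * ∑ l ∈ L, #(D l) < #Ω := by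
      by_contra hc
      push Not at hc
      have := Nat.mul_le_mul_left (Fintype.card ι) hc
      have e2 : Fintype.card ι * (2 * ∑ l ∈ L, #(D l)) =
        2 * (Fintype.card ι * ∑ l ∈ L, #(D l)) := by ring
      omega
    omega

end Pool.Agent.Helper14.SP
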