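import Pool.Agent.Helper14.SP2.St.A

/-!
# Project SP2, piece A6: `cov_of_hit` and `flex_of_family`
-/

set_option autoImplicit false

namespace Pool.Agent.Helper14.SP

open Finset Classical
open Pool.Agent.Helper97.RE (IsPath Rich PP Clean Cb)
open Pool.Agent.Helper55.JS (BV pt blow)

theorem cov_of_hit' {ι V Ξ : Type} [Fintype ι] (m : ι → ℕ) (N C EN : ℕ)
    (Ω1 Ω2 Ω : Finset (Obj ι V × Ξ)) (h1 : #Ω1 ≤ 2 * #Ω2) (hΩ : Ω ⊆ Ω2) (hC : #Ω2 ≤ C * #Ω)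
    (hEN : 4 * N * C ≤ EN) (hEN1 : 1 ≤ EN)
    (hit : ∀ (κ : (ι → V) × Ξ) (β : V),
      EN * #{ω ∈ Ω2 | (ends m ω.1, ω.2) = κ ∧ β ∈ inn m ω.1} ≤
        #{ω ∈ Ω1 | (ends m ω.1, ω.2) = κ})
    (T : (ι → V) × Ξ → Finset V) (hT : ∀ ρ, #(T ρ) ≤ N) :
    2 * #{ω ∈ Ω | ¬ Disjoint (inn m ω.1) (T (ends m ω.1, ω.2))} ≤ #Ω := by
  have hsub : {ω ∈ Ω | ¬ Disjoint (inn m ω.1) (T (ends m ω.1, ω.2))} ⊆
      (Ω2.image fun ω => (ends m ω.1, ω.2)).biUnion fun κ => (T κ).biUnion fun β =>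
        {ω ∈ Ω2 | (ends m ω.1, ω.2) = κ ∧ β ∈ inn m ω.1} := by
    intro ω hω
    rw [mem_filter, Finset.not_disjoint_iff] at hω
    obtain ⟨hω1, β, hβ1, hβ2⟩ := hω
    rw [mem_biUnion]
    refine ⟨(ends m ω.1, ω.2), mem_image_of_mem _ (hΩ hω1), ?_⟩
    rw [mem_biUnion]
    exact ⟨β, hβ2, mem_filter.2 ⟨hΩ hω1, rfl, hβ1⟩⟩
  have h2 : EN * #{ω ∈ Ω | ¬ Disjoint (inn m ω.1) (T (ends m ω.1, ω.2))} ≤
      ∑ κ ∈ Ω2.image fun ω => (ends m ω.1, ω.2), N * #{ω ∈ Ω1 | (ends m ω.1, ω.2) = κ} := by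
    refine (Nat.mul_le_mul_left _ ((card_le_card hsub).trans card_biUnion_le)).trans ?_
    rw [mul_sum]
    refine sum_le_sum fun κ _ => ?_
    refine (Nat.mul_le_mul_left _ card_biUnion_le).trans ?_
    rw [mul_sum]
    refine (sum_le_sum fun β _ => hit κ β).trans ?_
    rw [sum_const, smul_eq_mul]
    exact Nat.mul_le_mul_right _ (hT κ)
  have h3 : (∑ κ ∈ Ω2.image fun ω => (ends m ω.1, ω.2),
      N * #{ω ∈ Ω1 | (ends m ω.1, ω.2) = κ}) ≤ N * #Ω1 := by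
    rw [← mul_sum]
    refine Nat.mul_le_mul_left _ ?_
    rw [Finset.sum_card_fiberwise_eq_card_filter]
    exact card_le_card (filter_subset _ _)
  have h4 : N * #Ω1 ≤ 2 * N * C * #Ω := by
    calc N * #Ω1 ≤ N * (2 * (C * #Ω)) :=
          Nat.mul_le_mul_left _ (h1.trans (Nat.mul_le_mul_left _ hC))
      _ = 2 * N * C * #Ω := by ring
  have h5 : EN * (2 * #{ω ∈ Ω | ¬ Disjoint (inn m ω.1) (T (ends m ω.1, ω.2))}) ≤ EN * #Ω := by
    calc EN * (2 * #{ω ∈ Ω | ¬ Disjoint (inn m ω.1) (T (ends m ω.1, ω.2))})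
        = 2 * (EN * #{ω ∈ Ω | ¬ Disjoint (inn m ω.1) (T (ends m ω.1, ω.2))}) := by ring
      _ ≤ 2 * (2 * N * C * #Ω) := Nat.mul_le_mul_left _ (h2.trans (h3.trans h4))
      _ = 4 * N * C * #Ω := by ring
      _ ≤ EN * #Ω := Nat.mul_le_mul_right _ hEN
  exact Nat.le_of_mul_le_mul_left h5 hEN1

/-- flexible family with attachments `ζ` -/
theorem flex_of_family' {ι F Ξ V : Type} [Fintype ι] [Fintype F] (G : SimpleGraph V)
    (i j : ι → ℕ) (k N0 r H : ℕ) (hi : ∀ c, 1 ≤ i c ∧ i c ≤ j c)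
    (hi1 : ∀ c c', i c = 1 → i c' = 1 → c = c') (hk : 1 ≤ k) (hr : rmin j F k N0 ≤ r)
    (Ω : Finset (Obj ι V × Ξ)) (ζ : Ξ → F → V) (hne : Ω.Nonempty)
    (hΩ : ∀ ω ∈ Ω, Sp G i ω.1 ∧ Function.Injective (ζ ω.2) ∧
      ∀ f, Rich G k r ω.1.1 (ζ ω.2 f) ∧ ζ ω.2 f ∉ vs i ω.1)
    (hcov : ∀ T : (ι → V) × Ξ → Finset V, (∀ ρ, #(T ρ) ≤ nmin j N0) →
      2 * #{ω ∈ Ω | ¬ Disjoint (inn i ω.1) (T (ends i ω.1, ω.2))} ≤ #Ω)
    (hH : ∀ y, #{ω ∈ Ω | (tr i ω.1, ω.2) = y} ≤ H)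
    (hst : ∀ l, i l < j l → 2 * (Fintype.card ι * (nmin j N0 * H *
      #(Ω.image fun ω => (tr (dn i l) ω.1, ω.2)))) < #Ω) :
    ∃ X : ι ⊕ F → V, Flex G (Sum.elim j fun _ => k) N0 X := by
  obtain ⟨Fam, hFam, ⟨ω0, hω0⟩, hfa, hfb⟩ := ff i j (fun c => (hi c).1) (nmin j N0) H Ω
    (fun ω B => ¬ Disjoint (inn i ω.1) B)
    (fun T hT => by convert hcov T hT) hH hst hne
  obtain ⟨-, hζ, -⟩ := hΩ ω0 (hFam hω0)
  have hsum : ∑ c, (i c + 1) ≤ ∑ c, (j c + 1) :=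
    sum_le_sum fun c _ => Nat.add_le_add_right (hi c).2 1
  obtain ⟨X, hX, hXZ⟩ := lemZ G i j hi hi1 (nmin j N0) N0 (le_refl _) (univ.image (ζ ω0.2))
    (fun u Z => Ext G (fun _ : F => k) (ζ ω0.2) u Z)
    (fun u Z Z' hZ h => Ext.anti hZ h) {x | (x, ω0.2) ∈ Fam} ⟨ω0.1, hω0⟩
    (by
      intro x hx
      obtain ⟨h1, -, h3⟩ := hΩ _ (hFam hx)
      have h4 : ∀ v ∈ vs i x, v ∉ univ.image (ζ ω0.2) := by
        intro v hv hv'
        obtain ⟨f, -, hf⟩ := mem_image.1 hv'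
        exact (h3 f).2 (hf ▸ hv)
      exact ⟨h1, h4 _ (mem_vs.2 (Or.inl rfl)), fun c m hm => h4 _ (mem_vs.2 (Or.inr ⟨c, m, hm, rfl⟩))⟩)
    (by
      intro x hx B hB
      obtain ⟨ω', hω', h1, h2, h3⟩ := hfa _ hx B hB
      have hω'' : (ω'.1, ω0.2) ∈ Fam := by
        have : (ω'.1, ω0.2) = ω' := Prod.ext rfl h1.symm
        rw [this]; exact hω'
      refine ⟨ω'.1, hω'', fun c => congrFun h2 c, not_not.1 h3, ?_⟩
      obtain ⟨-, -, h6⟩ := hΩ _ (hFam hω'')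
      refine ext_of_rich G (fun _ : F => k) (fun _ => hk) (ζ ω0.2) hζ ω'.1.1 _ r ?_
        (fun f => (h6 f).1)
      have e1 : #(B ∪ vs i ω'.1) ≤ nmin j N0 + (∑ c, (j c + 1) + 1) :=
        (card_union_le _ _).trans (Nat.add_le_add hB ((card_vs_le i _).trans
          (Nat.add_le_add_right hsum 1)))
      have e2 : ∑ _f : F, (k + 2) = Fintype.card F * (k + 2) := by
        rw [sum_const, card_univ, smul_eq_mul]
      unfold rmin at hr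
      unfold nmin at e1
      rw [e2]
      omega)
    (by
      intro x hx l hl B hB
      obtain ⟨ω', hω', h1, h2, h3⟩ := hfb _ hx l hl B hB
      have hω'' : (ω'.1, ω0.2) ∈ Fam := by
        have : (ω'.1, ω0.2) = ω' := Prod.ext rfl h1.symm
        rw [this]; exact hω'
      rw [tr_eq_iff] at h2
      refine ⟨ω'.1, hω'', h2.1, fun c m hm hcm => h2.2 c m ?_, h3⟩
      unfold dn
      by_cases hc : c = l
      · subst hc
        rw [Function.update_self]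
        have := hcm rfl
        omega
      · rw [Function.update_of_ne hc]
        exact hm)
  exact ⟨Sum.elim X (ζ ω0.2), flex_of_short G j (fun _ : F => k) (fun c => (hi c).1.trans (hi c).2)
    (fun _ => hk) X (ζ ω0.2) (univ.image (ζ ω0.2)) (fun f => mem_image_of_mem _ (mem_univ f)) hX N0
    hXZ⟩

end Pool.Agent.Helper14.SP
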