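import Pool.Agent.Helper14.SP2.St.C

/-!
# Project SP2: walks in a hub (SP2-C4)
-/

set_option autoImplicit false

namespace Pool.Agent.Helper14.SP

open Finset Classical
open Pool.Agent.Helper97.RE (IsPath Rich PP Clean Cb)

/-- prepending one vertex to a rich pair -/
theorem c4_rich_cons {V : Type} {G : SimpleGraph V} {J N : ℕ} {y z : V} (hyz : y ≠ z)
    (h : ∀ Z : Finset V, #Z ≤ N → ∃ a, G.Adj y a ∧ a ∉ Z ∧ Rich G J (N + 1) a z) :
    Rich G (J + 1) N y z := by
  intro Z hZ
  obtain ⟨a, hya, haZ, ha⟩ := h Z hZ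
  obtain ⟨p, hp, hp0, hpl, hpi⟩ := ha (insert y Z)
    ((card_insert_le _ _).trans (Nat.add_le_add_right hZ 1))
  have hne : ∀ i, y ≠ p i := by
    intro i
    by_cases h0 : i = 0
    · rw [h0, hp0]; exact hya.ne
    · by_cases h1 : i = Fin.last J
      · rw [h1, hpl]; exact hyz
      · intro he
        exact hpi i h0 h1 (he ▸ mem_insert_self _ _)
  refine ⟨Fin.cons y p, ⟨?_, ?_⟩, ?_, ?_, ?_⟩
  · intro i j
    refine Fin.cases ?_ (fun i => ?_) i <;> refine Fin.cases ?_ (fun j => ?_) j
    · intro _; rfl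
    · intro he
      rw [Fin.cons_zero, Fin.cons_succ] at he
      exact absurd he (hne j)
    · intro he
      rw [Fin.cons_zero, Fin.cons_succ] at he
      exact absurd he.symm (hne i)
    · intro he
      rw [Fin.cons_succ, Fin.cons_succ] at he
      rw [hp.1 he]
  · intro i
    refine Fin.cases ?_ (fun i => ?_) i
    · rw [Fin.cons_succ]
      change G.Adj y (p 0)
      rw [hp0]
      exact hya
    · rw [Fin.cons_succ, ← Fin.succ_castSucc, Fin.cons_succ]
      exact hp.2 i
  · rw [Fin.cons_zero]
  · rw [← Fin.succ_last, Fin.cons_succ, hpl]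
  · intro i
    refine Fin.cases ?_ (fun i => ?_) i
    · intro h0 _
      exact absurd rfl h0
    · intro _ h1
      rw [Fin.cons_succ]
      have h1' : i ≠ Fin.last J := by
        intro he
        exact h1 (by rw [he, Fin.succ_last])
      by_cases h0 : i = 0
      · rw [h0, hp0]; exact haZ
      · exact fun hm => hpi i h0 h1' (mem_insert_of_mem hm)

/-- appending one vertex to a rich pair -/
theorem c4_rich_snoc {V : Type} {G : SimpleGraph V} {J N : ℕ} {y z : V} (hyz : y ≠ z)
    (h : ∀ Z : Finset V, #Z ≤ N → ∃ a, G.Adj a z ∧ a ∉ Z ∧ Rich G J (N + 1) y a) :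
    Rich G (J + 1) N y z := by
  intro Z hZ
  obtain ⟨a, haz, haZ, ha⟩ := h Z hZ
  obtain ⟨p, hp, hp0, hpl, hpi⟩ := ha (insert z Z)
    ((card_insert_le _ _).trans (Nat.add_le_add_right hZ 1))
  have hne : ∀ i, p i ≠ z := by
    intro i
    by_cases h0 : i = 0
    · rw [h0, hp0]; exact hyz
    · by_cases h1 : i = Fin.last J
      · rw [h1, hpl]; exact haz.ne
      · intro he
        exact hpi i h0 h1 (he ▸ mem_insert_self _ _)
  refine ⟨Fin.snoc p z, hp.snoc (by rw [hpl]; exact haz) hne, ?_, ?_, ?_⟩
  · have : (0 : Fin (J + 1 + 1)) = (0 : Fin (J + 1)).castSucc := rfl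
    rw [this, Fin.snoc_castSucc, hp0]
  · rw [Fin.snoc_last]
  · intro i
    refine Fin.lastCases ?_ (fun i => ?_) i
    · intro _ h1
      exact absurd rfl h1
    · intro h0 _
      rw [Fin.snoc_castSucc]
      have h0' : i ≠ 0 := by
        intro he
        exact h0 (by rw [he]; rfl)
      by_cases h1 : i = Fin.last J
      · rw [h1, hpl]; exact haZ
      · exact fun hm => hpi i h0' h1 (mem_insert_of_mem hm)

theorem Hub.rich_b' {V : Type} {G : SimpleGraph V} {l N D m : ℕ} {v : V} {b : Fin m → V}
    {W A : Finset V} (h : Hub G l N D m v b W A) (hl : 1 ≤ l) (J N' : ℕ) (hJ : l ≤ J)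
    (hD : N' + J + 2 ≤ D) (hN : N' + J + 2 ≤ N) (i : Fin m) (y : V) (hy : y ≠ b i)
    (h0 : Even (J - l) → y ∈ W) (h1 : ¬ Even (J - l) → y ∈ A) : Rich G J N' y (b i) := by
  induction J generalizing N' y with
  | zero => omega
  | succ J ih =>
    rcases Nat.lt_or_ge J l with hlt | hge
    · have hJl : J + 1 = l := by omega
      subst hJl
      have hyW : y ∈ W := h0 (by simp)
      exact (h.rich y hyW i).mono (by omega)
    · refine c4_rich_cons hy fun Z hZ => ?_
      by_cases hev : Even (J + 1 - l)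
      · have hyW := h0 hev
        have hodd : ¬ Even (J - l) := by
          intro h2
          have h3 : J + 1 - l = (J - l) + 1 := by omega
          rw [h3, Nat.even_add_one] at hev
          exact hev h2
        have hc : #(insert (b i) Z) < #{a ∈ A | G.Adj y a} := by
          have := card_insert_le (b i) Z
          have := h.degW y hyW
          omega
        obtain ⟨a, ha, haZ⟩ := exists_mem_notMem_of_card_lt_card hc
        rw [mem_filter] at ha
        rw [mem_insert, not_or] at haZ
        exact ⟨a, ha.2, haZ.2, ih (N' + 1) hge (by omega) (by omega) a haZ.1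
          (fun h2 => absurd h2 hodd) (fun _ => ha.1)⟩
      · have hyA := h1 hev
        have hodd : Even (J - l) := by
          by_contra h2
          have h3 : J + 1 - l = (J - l) + 1 := by omega
          rw [h3, Nat.even_add_one] at hev
          exact hev h2
        have hc : #(insert (b i) Z) < #{w ∈ W | G.Adj y w} := by
          have := card_insert_le (b i) Z
          have := h.degA y hyA
          omega
        obtain ⟨a, ha, haZ⟩ := exists_mem_notMem_of_card_lt_card hc
        rw [mem_filter] at ha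
        rw [mem_insert, not_or] at haZ
        exact ⟨a, ha.2, haZ.2, ih (N' + 1) hge (by omega) (by omega) a haZ.1
          (fun _ => ha.1) (fun h2 => absurd hodd h2)⟩

theorem Hub.rich_v' {V : Type} {G : SimpleGraph V} {l N D m : ℕ} {v : V} {b : Fin m → V}
    {W A : Finset V} (h : Hub G l N D m v b W A) (hl : 1 ≤ l) (J N' : ℕ) (hJ : l + 1 ≤ J)
    (hD : N' + J + 4 ≤ D) (hN : N' + J + 4 ≤ N) (hm : N' + J + 4 ≤ m) (y : V) (hy : y ≠ v)
    (h0 : Even (J - (l + 1)) → y ∈ W) (h1 : ¬ Even (J - (l + 1)) → y ∈ A) :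
    Rich G J N' y v := by
  obtain ⟨J, rfl⟩ : ∃ J', J = J' + 1 := ⟨J - 1, by omega⟩
  have hpar : J + 1 - (l + 1) = J - l := by omega
  rw [hpar] at h0 h1
  refine c4_rich_snoc hy fun Z hZ => ?_
  have hc : #(insert y Z) < #(univ.image b) := by
    rw [card_image_of_injective _ h.inj, card_univ, Fintype.card_fin]
    have := card_insert_le y Z
    omega
  obtain ⟨a, ha, haZ⟩ := exists_mem_notMem_of_card_lt_card hc
  obtain ⟨i, _, rfl⟩ := mem_image.1 ha
  rw [mem_insert, not_or] at haZ
  exact ⟨b i, (h.adj i).symm, haZ.2, Hub.rich_b' h hl J (N' + 1) (by omega) (by omega) (by omega)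
    i y (Ne.symm haZ.1) h0 h1⟩

end Pool.Agent.Helper14.SP
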