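import Pool.Agent.Helper14.SP2.Defs

/-!
# Project SP2, piece A3: Lemma Z (reflection)
-/

set_option autoImplicit false

namespace Pool.Agent.Helper14.SP

open Finset Classical
open Pool.Agent.Helper97.RE (IsPath Rich PP Clean Cb)

namespace LZ

variable {ι V : Type}

/-- re-branch several legs -/
theorem rebranch_many {i j : ι → ℕ} {N : ℕ} {F : Set (Obj ι V)}
    (hb : ∀ x ∈ F, ∀ l, i l < j l → ∀ B : Finset V, #B ≤ N → ∃ y ∈ F, y.1 = x.1 ∧
      (∀ c m, m ≤ i c → (c = l → m < i l) → y.2 c m = x.2 c m) ∧ y.2 l (i l) ∉ B)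
    (x : Obj ι V) (hx : x ∈ F) (B : Finset V) (hB : #B ≤ N) (E : Finset ι)
    (hE : ∀ l ∈ E, i l < j l) :
    ∃ y ∈ F, y.1 = x.1 ∧ (∀ c m, m ≤ i c → (c ∈ E → m < i c) → y.2 c m = x.2 c m) ∧
      ∀ l ∈ E, y.2 l (i l) ∉ B := by
  induction E using Finset.induction_on with
  | empty => exact ⟨x, hx, rfl, fun _ _ _ _ => rfl, by simp⟩
  | insert l E hl ih =>
    obtain ⟨y, hy, hy1, hy2, hy3⟩ := ih (fun l' hl' => hE l' (mem_insert_of_mem hl'))
    obtain ⟨z, hz, hz1, hz2, hz3⟩ := hb y hy l (hE l (mem_insert_self _ _)) B hB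
    refine ⟨z, hz, hz1.trans hy1, fun c m hm hc => ?_, fun l' hl' => ?_⟩
    · rw [hz2 c m hm (fun h => by subst h; exact hc (mem_insert_self _ _)),
        hy2 c m hm (fun h => hc (mem_insert_of_mem h))]
    · rcases mem_insert.1 hl' with h | h
      · subst h; exact hz3
      · have hne : l' ≠ l := fun h' => hl (h' ▸ h)
        rw [hz2 l' (i l') le_rfl (fun h' => absurd h' hne)]
        exact hy3 l' h

/-- the new object: `y` up to level `i`, then the old part of `x`, shifted by two on `E` -/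
noncomputable def glue (i : ι → ℕ) (E : Finset ι) (x y : Obj ι V) : Obj ι V :=
  (y.1, fun c m => if m ≤ i c then y.2 c m else if c ∈ E then x.2 c (m - 2) else x.2 c m)

theorem glue_le {i : ι → ℕ} {E : Finset ι} {x y : Obj ι V} {c : ι} {m : ℕ} (h : m ≤ i c) :
    (glue i E x y).2 c m = y.2 c m := if_pos h

theorem glue_mem {i : ι → ℕ} {E : Finset ι} {x y : Obj ι V} {c : ι} {m : ℕ} (h : i c < m)
    (hc : c ∈ E) : (glue i E x y).2 c m = x.2 c (m - 2) := by
  unfold glue
  simp only
  rw [if_neg (by omega), if_pos hc]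

theorem glue_not_mem {i : ι → ℕ} {E : Finset ι} {x y : Obj ι V} {c : ι} {m : ℕ} (h : i c < m)
    (hc : c ∉ E) : (glue i E x y).2 c m = x.2 c m := by
  unfold glue
  simp only
  rw [if_neg (by omega), if_neg hc]

theorem glue_sp [Fintype ι] {G : SimpleGraph V} {i L : ι → ℕ} (hi : ∀ c, 1 ≤ i c)
    (hL : ∀ c, i c ≤ L c) (h1 : ∀ c c', i c = 1 → i c' = 1 → c = c') (E : Finset ι)
    {x w y : Obj ι V} (hx : Sp G L x) (hw : Sp G i w)
    (hw2 : ∀ c m, m ≤ i c → (c ∈ E → m < i c) → w.2 c m = x.2 c m)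
    (hy : Sp G i y) (hye : ∀ c, y.2 c (i c) = w.2 c (i c))
    (hE : ∀ c ∈ E, w.2 c (i c) ∉ vs L x) (hd : Disjoint (inn i y) (vs L x)) :
    Sp G (fun c => if c ∈ E then L c + 2 else L c) (glue i E x y) := by
  -- an old vertex
  have old : ∀ c m, i c < m → m ≤ (if c ∈ E then L c + 2 else L c) →
      ∃ a, (glue i E x y).2 c m = x.2 c a ∧ a ≤ L c ∧ (c ∈ E → a + 2 = m) ∧ (c ∉ E → a = m) := by
    intro c m h h'
    by_cases hc : c ∈ E
    · rw [if_pos hc] at h'
      exact ⟨m - 2, glue_mem h hc, by omega, fun _ => by have := hi c; omega,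
        fun h => absurd hc h⟩
    · rw [if_neg hc] at h'
      exact ⟨m, glue_not_mem h hc, by omega, fun h => absurd h hc, fun _ => rfl⟩
  have hinn : ∀ c m, m < i c → y.2 c m ∈ inn i y := by
    intro c m hm
    rw [mem_inn]
    rcases Nat.eq_zero_or_pos m with h | h
    · left; rw [h]; exact hy.start c
    · right; exact ⟨c, m, h, hm, rfl⟩
  have hdis : ∀ c m, m < i c → ∀ c' a, a ≤ L c' → y.2 c m ≠ x.2 c' a := by
    intro c m hm c' a ha he
    refine (Finset.disjoint_left.1 hd (hinn c m hm)) ?_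
    rw [mem_vs]
    exact Or.inr ⟨c', a, ha, he.symm⟩
  -- mixed case
  have mixed : ∀ c m c' m', m ≤ i c → i c' < m' →
      m' ≤ (if c' ∈ E then L c' + 2 else L c') →
      (glue i E x y).2 c m ≠ (glue i E x y).2 c' m' := by
    intro c m c' m' hm hm' hm'' he
    obtain ⟨a, ha1, ha2, ha3, ha4⟩ := old c' m' hm' hm''
    rw [glue_le hm, ha1] at he
    rcases hm.lt_or_eq with h | h
    · exact hdis c m h c' a ha2 he
    · subst h
      rw [hye c] at he
      by_cases hc : c ∈ E
      · exact hE c hc (mem_vs.2 (Or.inr ⟨c', a, ha2, he.symm⟩))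
      · rw [hw2 c (i c) le_rfl (fun h => absurd h hc)] at he
        obtain ⟨h3, h4⟩ := hx.inj c c' (i c) a (hi c) (hL c) ha2 he
        subst h3
        have := ha4 hc
        omega
  refine ⟨fun c => ?_, fun c m hm => ?_, fun c c' m m' hm1 hm hm' he => ?_⟩
  · rw [glue_le (Nat.zero_le _)]
    exact hy.start c
  · rcases Nat.lt_trichotomy m (i c) with h | h | h
    · rw [glue_le h.le, glue_le h]
      exact hy.adj c m h
    · subst h
      rw [glue_le le_rfl, hye c]
      by_cases hc : c ∈ E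
      · rw [glue_mem (Nat.lt_succ_self _) hc]
        have e1 : i c + 1 - 2 = i c - 1 := by omega
        have e2 : i c - 1 + 1 = i c := Nat.sub_add_cancel (hi c)
        rw [e1, ← hw2 c (i c - 1) (by omega) (fun _ => by have := hi c; omega)]
        have := hw.adj c (i c - 1) (by have := hi c; omega)
        rw [e2] at this
        exact this.symm
      · rw [glue_not_mem (Nat.lt_succ_self _) hc, hw2 c (i c) le_rfl (fun h => absurd h hc)]
        have hm' : i c < L c := by
          simpa only [if_neg hc] using hm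
        exact hx.adj c (i c) hm'
    · by_cases hc : c ∈ E
      · rw [glue_mem h hc, glue_mem (by omega) hc]
        have hm' : m < L c + 2 := by simpa only [if_pos hc] using hm
        have hi' := hi c
        have e1 : m + 1 - 2 = m - 2 + 1 := by omega
        rw [e1]
        exact hx.adj c (m - 2) (by omega)
      · rw [glue_not_mem h hc, glue_not_mem (by omega) hc]
        have hm' : m < L c := by simpa only [if_neg hc] using hm
        exact hx.adj c m hm'
  · rcases Nat.lt_or_ge (i c) m with h | h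
    · rcases Nat.lt_or_ge (i c') m' with h' | h'
      · obtain ⟨a, ha1, ha2, ha3, ha4⟩ := old c m h hm
        obtain ⟨a', ha1', ha2', ha3', ha4'⟩ := old c' m' h' hm'
        rw [ha1, ha1'] at he
        have hcc : c = c' ∧ a = a' := by
          rcases Nat.eq_zero_or_pos a with h0 | h0
          · rcases Nat.eq_zero_or_pos a' with h0' | h0'
            · have hcE : c ∈ E := by
                by_contra hc
                have := ha4 hc
                omega
              have hcE' : c' ∈ E := by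
                by_contra hc
                have := ha4' hc
                omega
              have e1 := ha3 hcE
              have e2 := ha3' hcE'
              have i1 := hi c
              have i2 := hi c'
              exact ⟨h1 c c' (by omega) (by omega), by omega⟩
            · obtain ⟨q1, q2⟩ := hx.inj c' c a' a h0' ha2' ha2 he.symm
              exact ⟨q1.symm, q2.symm⟩
          · exact hx.inj c c' a a' h0 ha2 ha2' he
        obtain ⟨q1, q2⟩ := hcc
        subst q1
        refine ⟨rfl, ?_⟩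
        by_cases hc : c ∈ E
        · have e1 := ha3 hc
          have e2 := ha3' hc
          omega
        · have e1 := ha4 hc
          have e2 := ha4' hc
          omega
      · exact absurd he.symm (mixed c' m' c m h' h hm)
    · rcases Nat.lt_or_ge (i c') m' with h' | h'
      · exact absurd he (mixed c m c' m' h h' hm')
      · rw [glue_le h, glue_le h'] at he
        exact hy.inj c c' m m' hm1 h h' he

/-- the induction statement -/
def St [Fintype ι] (G : SimpleGraph V) (i : ι → ℕ) (N0 : ℕ) (Y : Finset V)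
    (Ψ : V → Finset V → Prop) (F : Set (Obj ι V)) (X : ι → V) (L : ι → ℕ) : Prop :=
  ∀ Z : Finset V, #Z ≤ N0 → (∀ c, X c ∉ Z) →
      ∃ x : Obj ι V, (Sp G L x ∧ (∀ c, x.2 c (L c) = X c) ∧ x.1 ∉ Z ∧ x.1 ∉ Y ∧
        (∀ c m, 1 ≤ m → m < L c → x.2 c m ∉ Z ∧ x.2 c m ∉ Y) ∧ Ψ x.1 (Z ∪ vs L x)) ∧
        ∃ x' ∈ F, x'.1 = x.1 ∧ ∀ c m, m ≤ i c → x'.2 c m = x.2 c m

theorem vs_glue [Fintype ι] {i L L' : ι → ℕ} {E : Finset ι} {x y : Obj ι V}
    (hL' : ∀ c, L' c ≤ if c ∈ E then L c + 2 else L c) :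
    vs L' (glue i E x y) ⊆ vs L x ∪ vs i y := by
  intro v hv
  rw [mem_vs] at hv
  rw [mem_union, mem_vs, mem_vs]
  rcases hv with h | ⟨c, m, hm, h⟩
  · right; left; exact h
  · rcases Nat.lt_or_ge (i c) m with h' | h'
    · left; right
      have hm' := hm.trans (hL' c)
      by_cases hc : c ∈ E
      · rw [if_pos hc] at hm'
        exact ⟨c, m - 2, by omega, by rw [← h, glue_mem h' hc]⟩
      · rw [if_neg hc] at hm'
        exact ⟨c, m, hm', by rw [← h, glue_not_mem h' hc]⟩
    · right; right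
      exact ⟨c, m, h', by rw [← h, glue_le h']⟩

end LZ

open LZ in
theorem lemZ {ι V : Type} [Fintype ι] (G : SimpleGraph V) (i j : ι → ℕ)
    (hi : ∀ c, 1 ≤ i c ∧ i c ≤ j c) (h1 : ∀ c c', i c = 1 → i c' = 1 → c = c')
    (N N0 : ℕ) (hN : N0 + 2 * (∑ c, (j c + 1) + 1) ≤ N) (Y : Finset V)
    (Ψ : V → Finset V → Prop) (hΨ : ∀ u Z Z', Z ⊆ Z' → Ψ u Z' → Ψ u Z)
    (F : Set (Obj ι V)) (hne : F.Nonempty)
    (hF : ∀ x ∈ F, Sp G i x ∧ x.1 ∉ Y ∧ ∀ c m, m ≤ i c → x.2 c m ∉ Y)
    (ha : ∀ x ∈ F, ∀ B : Finset V, #B ≤ N → ∃ y ∈ F, (∀ c, y.2 c (i c) = x.2 c (i c)) ∧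
      Disjoint (inn i y) B ∧ Ψ y.1 (B ∪ vs i y))
    (hb : ∀ x ∈ F, ∀ l, i l < j l → ∀ B : Finset V, #B ≤ N → ∃ y ∈ F, y.1 = x.1 ∧
      (∀ c m, m ≤ i c → (c = l → m < i l) → y.2 c m = x.2 c m) ∧ y.2 l (i l) ∉ B) :
    ∃ X : ι → V, (∀ c, X c ∉ Y) ∧ ∀ Z : Finset V, #Z ≤ N0 → (∀ c, X c ∉ Z) →
      ∃ x : Obj ι V, Sp G j x ∧ (∀ c, x.2 c (j c) = X c) ∧ x.1 ∉ Z ∧ x.1 ∉ Y ∧
        (∀ c m, 1 ≤ m → m < j c → x.2 c m ∉ Z ∧ x.2 c m ∉ Y) ∧ Ψ x.1 (Z ∪ vs j x) := by
  have hi1 : ∀ c, 1 ≤ i c := fun c => (hi c).1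
  have hsize : ∀ (L : ι → ℕ) (x : Obj ι V) (Z : Finset V), (∀ c, L c ≤ j c) → #Z ≤ N0 →
      #(Z ∪ vs L x) ≤ N := by
    intro L x Z hL hZ
    have e1 := card_union_le Z (vs L x)
    have e2 := card_vs_le L x
    have e3 : ∑ c, (L c + 1) ≤ ∑ c, (j c + 1) :=
      sum_le_sum fun c _ => Nat.add_le_add_right (hL c) 1
    omega
  -- the general construction
  have main : ∀ (L : ι → ℕ) (x : Obj ι V) (E : Finset ι) (Z : Finset V), (∀ c, i c ≤ L c) →
      (∀ c, L c ≤ j c) → (∀ c ∈ E, i c < j c) → #Z ≤ N0 → Sp G L x →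
      (∃ x' ∈ F, x'.1 = x.1 ∧ ∀ c m, m ≤ i c → x'.2 c m = x.2 c m) →
      ∃ y ∈ F, Sp G (fun c => if c ∈ E then L c + 2 else L c) (glue i E x y) ∧
        (∀ c ∈ E, y.2 c (i c) ∉ Z) ∧ (∀ c, c ∉ E → y.2 c (i c) = x.2 c (i c)) ∧
        Disjoint (inn i y) Z ∧ Ψ y.1 ((Z ∪ vs L x) ∪ vs i y) := by
    intro L x E Z hiL hLj hE hZ hx hx'
    obtain ⟨x', hx'F, hx'1, hx'2⟩ := hx'
    obtain ⟨w, hwF, hw1, hw2, hw3⟩ := rebranch_many hb x' hx'F (Z ∪ vs L x)
      (hsize L x Z hLj hZ) E hE
    obtain ⟨y, hyF, hy1, hy2, hy3⟩ := ha w hwF (Z ∪ vs L x) (hsize L x Z hLj hZ)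
    have hw2' : ∀ c m, m ≤ i c → (c ∈ E → m < i c) → w.2 c m = x.2 c m := fun c m h h' => by
      rw [hw2 c m h h', hx'2 c m h]
    rw [Finset.disjoint_union_right] at hy2
    refine ⟨y, hyF, glue_sp hi1 hiL h1 E hx (hF w hwF).1 hw2' (hF y hyF).1 hy1
      (fun c hc h => hw3 c hc (mem_union_right _ h)) hy2.2, fun c hc h => ?_, fun c hc => ?_,
      hy2.1, hy3⟩
    · rw [hy1 c] at h
      exact hw3 c hc (mem_union_left _ h)
    · rw [hy1 c, hw2' c (i c) le_rfl (fun h => absurd h hc)]
  obtain ⟨x0, hx0⟩ := hne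
  obtain ⟨hx0s, hx0Y, hx0Y'⟩ := hF x0 hx0
  let O : Finset ι := univ.filter fun c => (j c - i c) % 2 = 1
  have hO : ∀ c, c ∈ O ↔ (j c - i c) % 2 = 1 := fun c => by
    simp only [O, mem_filter, mem_univ, true_and]
  let X : ι → V := fun c => if c ∈ O then x0.2 c (i c - 1) else x0.2 c (i c)
  let L1 : ι → ℕ := fun c => if c ∈ O then i c + 1 else i c
  have hinn : ∀ (y : Obj ι V), Sp G i y → ∀ c m, m < i c → y.2 c m ∈ inn i y := by
    intro y hy c m hm
    rw [mem_inn]
    rcases Nat.eq_zero_or_pos m with h | h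
    · left; rw [h]; exact hy.start c
    · right; exact ⟨c, m, h, hm, rfl⟩
  have hst1 : St G i N0 Y Ψ F X L1 := by
    intro Z hZ hXZ
    obtain ⟨y, hyF, hsp, hyE, hyE', hyd, hyΨ⟩ := main i x0 O Z (fun _ => le_rfl)
      (fun c => (hi c).2) (fun c hc => by have := (hO c).1 hc; omega) hZ hx0s
      ⟨x0, hx0, rfl, fun _ _ _ => rfl⟩
    obtain ⟨hys, hyY, hyY'⟩ := hF y hyF
    refine ⟨glue i O x0 y, ⟨hsp.mono fun c => ?_, fun c => ?_, ?_, hyY, fun c m hm1 hm => ?_, ?_⟩,
      y, hyF, rfl, fun c m hm => (glue_le hm).symm⟩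
    · by_cases hc : c ∈ O
      · simp only [L1, if_pos hc]; omega
      · simp only [L1, if_neg hc]; omega
    · by_cases hc : c ∈ O
      · simp only [L1, X, if_pos hc]
        rw [glue_mem (Nat.lt_succ_self _) hc]
        congr 1
      · simp only [L1, X, if_neg hc]
        rw [glue_le le_rfl, hyE' c hc]
    · exact fun h => Finset.disjoint_left.1 hyd (mem_inn.2 (Or.inl rfl)) h
    · by_cases hc : c ∈ O
      · simp only [L1, if_pos hc] at hm
        have hm' : m ≤ i c := by omega
        rw [glue_le hm']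
        refine ⟨?_, hyY' c m hm'⟩
        rcases hm'.lt_or_eq with h | h
        · exact fun h' => Finset.disjoint_left.1 hyd (hinn y hys c m h) h'
        · rw [h]; exact hyE c hc
      · simp only [L1, if_neg hc] at hm
        rw [glue_le hm.le]
        exact ⟨fun h' => Finset.disjoint_left.1 hyd (hinn y hys c m hm) h', hyY' c m hm.le⟩
    · refine hΨ _ _ _ ?_ hyΨ
      rw [union_assoc]
      refine union_subset_union (Subset.refl _) (vs_glue fun c => ?_)
      by_cases hc : c ∈ O
      · simp only [L1, if_pos hc]; omega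
      · simp only [L1, if_neg hc]; omega
  -- the induction
  have step : ∀ (k : ℕ) (L : ι → ℕ), (∀ c, i c ≤ L c ∧ L c ≤ j c ∧ (j c - L c) % 2 = 0) →
      (∀ c, j c - L c ≤ k) → St G i N0 Y Ψ F X L → St G i N0 Y Ψ F X j := by
    intro k
    induction k with
    | zero =>
      intro L hL hk hst
      have : L = j := by
        funext c
        have e1 := hk c
        have e2 := (hL c).2.1
        omega
      rwa [this] at hst
    | succ k ih =>
      intro L hL hk hst
      let E : Finset ι := univ.filter fun c => L c < j c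
      have hE : ∀ c, c ∈ E ↔ L c < j c := fun c => by
        simp only [E, mem_filter, mem_univ, true_and]
      let L' : ι → ℕ := fun c => if c ∈ E then L c + 2 else L c
      have hL'E : ∀ c, c ∈ E → L' c = L c + 2 := fun c hc => if_pos hc
      have hL'E' : ∀ c, c ∉ E → L' c = L c := fun c hc => if_neg hc
      refine ih L' (fun c => ?_) (fun c => ?_) ?_
      · obtain ⟨e1, e2, e3⟩ := hL c
        by_cases hc : c ∈ E
        · rw [hL'E c hc]
          have := (hE c).1 hc
          omega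
        · rw [hL'E' c hc]
          exact ⟨e1, e2, e3⟩
      · have e1 := hk c
        by_cases hc : c ∈ E
        · rw [hL'E c hc]; omega
        · rw [hL'E' c hc]
          have := mt (hE c).2 hc
          omega
      · intro Z hZ hXZ
        obtain ⟨x, ⟨hxs, hxe, hxZ, hxY, hxi, hxΨ⟩, hx'⟩ := hst Z hZ hXZ
        obtain ⟨y, hyF, hsp, hyE, hyE', hyd, hyΨ⟩ := main L x E Z (fun c => (hL c).1)
          (fun c => (hL c).2.1) (fun c hc => by
            have e1 := (hE c).1 hc
            have e2 := (hL c).1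
            omega) hZ hxs hx'
        obtain ⟨hys, hyY, hyY'⟩ := hF y hyF
        refine ⟨glue i E x y, ⟨hsp, fun c => ?_, ?_, hyY, fun c m hm1 hm => ?_, ?_⟩,
          y, hyF, rfl, fun c m hm => (glue_le hm).symm⟩
        · by_cases hc : c ∈ E
          · rw [hL'E c hc, glue_mem (by have := (hL c).1; omega) hc, ← hxe c]
            congr 1
          · rw [hL'E' c hc]
            rcases (hL c).1.lt_or_eq with h | h
            · rw [glue_not_mem h hc, hxe c]
            · rw [← h, glue_le le_rfl, hyE' c hc, h, hxe c]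
        · exact fun h => Finset.disjoint_left.1 hyd (mem_inn.2 (Or.inl rfl)) h
        · rcases Nat.lt_trichotomy m (i c) with h | h | h
          · rw [glue_le h.le]
            exact ⟨fun h' => Finset.disjoint_left.1 hyd (hinn y hys c m h) h', hyY' c m h.le⟩
          · subst h
            by_cases hc : c ∈ E
            · rw [glue_le le_rfl]
              exact ⟨hyE c hc, hyY' c _ le_rfl⟩
            · rw [hL'E' c hc] at hm
              rw [glue_le le_rfl, hyE' c hc]
              exact hxi c (i c) hm1 hm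
          · by_cases hc : c ∈ E
            · rw [hL'E c hc] at hm
              rw [glue_mem h hc]
              rcases Nat.eq_zero_or_pos (m - 2) with h0 | h0
              · rw [h0, hxs.start c]
                exact ⟨hxZ, hxY⟩
              · exact hxi c (m - 2) h0 (by omega)
            · rw [hL'E' c hc] at hm
              rw [glue_not_mem h hc]
              exact hxi c m hm1 hm
        · refine hΨ _ _ _ ?_ hyΨ
          rw [union_assoc]
          exact union_subset_union (Subset.refl _) (vs_glue fun c => le_rfl)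
  have hfin : St G i N0 Y Ψ F X j := by
    refine step (∑ c, j c) L1 (fun c => ?_) (fun c => ?_) hst1
    · have e1 := (hi c).2
      by_cases hc : c ∈ O
      · have := (hO c).1 hc
        simp only [L1, if_pos hc]
        omega
      · have := mt (hO c).2 hc
        simp only [L1, if_neg hc]
        omega
    · have := Finset.single_le_sum (f := j) (fun _ _ => Nat.zero_le _) (mem_univ c)
      omega
  refine ⟨X, fun c => ?_, fun Z hZ hXZ => ?_⟩
  · by_cases hc : c ∈ O
    · simp only [X, if_pos hc]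
      exact hx0Y' c _ (by omega)
    · simp only [X, if_neg hc]
      exact hx0Y' c _ le_rfl
  · obtain ⟨x, hx, _⟩ := hfin Z hZ hXZ
    exact ⟨x, hx⟩

end Pool.Agent.Helper14.SP
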