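import Pool.Agent.Helper14.SP2.St.B

/-!
# Project SP2, piece D5: `stepB1`
-/

set_option autoImplicit false

namespace Pool.Agent.Helper14.SP

open Finset Classical
open Pool.Agent.Helper97.RE (IsPath Rich PP Clean Cb)

theorem stepB1 {ι : Type} [Fintype ι] [Nonempty ι] (i j : ι → ℕ) (k K : ℕ) (R : ℕ → ℕ)
    (hi : ∀ c, 1 ≤ i c ∧ i c < j c) (hj : ∀ c, j c < k)
    (hi1 : ∀ c c', i c = 1 → i c' = 1 → c = c') : (∃ b, 2 ≤ i b) ∨ ∀ N : ℕ, ∃ d0 : ℕ,
    ∀ {V : Type} [Fintype V] [Nonempty V] (G : SimpleGraph V) (d : ℕ),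
      (∀ w, G.degree w ≤ K * d) → d0 ≤ d → ∀ Ω1 : Finset (Obj ι V),
      (∀ x ∈ Ω1, Good G (k - 1) R j x) → Fintype.card V * d ^ (∑ c, j c) ≤ N * #Ω1 →
      ∀ T : (ι → V) → Finset (ι → V), (∀ X, #(T X) ≤ N) →
      (∀ x ∈ Ω1, ends i x ∈ T (ends j x)) → False := by
  by_cases hb : ∃ b, 2 ≤ i b
  · exact Or.inl hb
  refine Or.inr fun N => ?_
  push Not at hb
  have h1 : ∀ c, i c = 1 := fun c => by
    have := hb c
    have := (hi c).1
    omega
  have hsub : ∀ c c' : ι, c = c' := fun c c' => hi1 c c' (h1 c) (h1 c')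
  obtain ⟨a⟩ := ‹Nonempty ι›
  have hcard : Fintype.card ι = 1 := Fintype.card_eq_one_iff.2 ⟨a, fun y => hsub y a⟩
  have hsum : ∑ c, j c = j a := by
    rw [Fintype.sum_eq_single a]
    intro x hx
    exact absurd (hsub x a) hx
  have hja : 2 ≤ j a := by
    have := hi a
    omega
  set C := ∏ c, Cb R (j c) with hC
  refine ⟨N * (N * (K * C)) + 1, ?_⟩
  intro V _ _ G d hdeg hd Ω1 hΩ hbig T hT hmem
  have hdpos : 0 < d := by omega
  -- the possible centres
  let U : (ι → V) → Finset V := fun X => (T X).biUnion fun W => G.neighborFinset (W a)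
  have hU : ∀ X, #(U X) ≤ N * (K * d) := by
    intro X
    refine (card_biUnion_le_card_mul _ _ (K * d) fun W _ => ?_).trans
      (Nat.mul_le_mul_right _ (hT X))
    rw [SimpleGraph.card_neighborFinset_eq_degree]
    exact hdeg _
  have hcov : Ω1 ⊆ (univ : Finset (ι → V)).biUnion fun X => (U X).biUnion fun u =>
      Ω1.filter fun x => x.1 = u ∧ ends j x = X := by
    intro x hx
    rw [mem_biUnion]
    refine ⟨ends j x, mem_univ _, ?_⟩
    rw [mem_biUnion]
    refine ⟨x.1, ?_, mem_filter.2 ⟨hx, rfl, rfl⟩⟩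
    rw [mem_biUnion]
    refine ⟨ends i x, hmem x hx, ?_⟩
    rw [SimpleGraph.mem_neighborFinset]
    have hsp := (hΩ x hx).sp
    have hadj := hsp.adj a 0 (by omega)
    rw [hsp.start a] at hadj
    have he : ends i x a = x.2 a (0 + 1) := by
      unfold ends
      rw [h1 a]
    rw [he]
    exact hadj.symm
  have hle : #Ω1 ≤ Fintype.card V * ((N * (K * d)) * C) := by
    refine (card_le_card hcov).trans ?_
    refine (card_biUnion_le_card_mul _ _ ((N * (K * d)) * C) fun X _ => ?_).trans ?_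
    · refine (card_biUnion_le_card_mul _ _ C fun u _ => ?_).trans
        (Nat.mul_le_mul_right _ (hU X))
      exact card_good_le G (k - 1) R j (fun c => by have := hj c; omega) Ω1 hΩ u X
    · rw [card_univ, Fintype.card_fun, hcard, pow_one]
  have hn : 0 < Fintype.card V := Fintype.card_pos
  rw [hsum] at hbig
  have h2 : Fintype.card V * d ^ 2 ≤ Fintype.card V * d ^ (j a) :=
    Nat.mul_le_mul_left _ (Nat.pow_le_pow_right hdpos hja)
  have h3 : Fintype.card V * d ^ 2 ≤ N * (Fintype.card V * ((N * (K * d)) * C)) :=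
    (h2.trans hbig).trans (Nat.mul_le_mul_left _ hle)
  have h4 : Fintype.card V * d ^ 2 = (Fintype.card V * d) * d := by ring
  have h5 : N * (Fintype.card V * ((N * (K * d)) * C)) =
      (Fintype.card V * d) * (N * (N * (K * C))) := by ring
  rw [h4, h5] at h3
  have h6 := Nat.le_of_mul_le_mul_left h3 (Nat.mul_pos hn hdpos)
  omega

end Pool.Agent.Helper14.SP
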