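import Pool.Agent.Helper14.SP2.St.D

/-!
# Project SP2, piece D8: the base at distance `k - 1`
-/

set_option autoImplicit false

namespace Pool.Agent.Helper14.SP

open Finset Classical
open Pool.Agent.Helper97.RE (IsPath Rich PP Clean Cb)

namespace StepC

section plus

variable {ι V : Type}

/-- leg `b` prolonged by `v` -/
noncomputable def plus (i : ι → ℕ) (b : ι) (x : Obj ι V) (v : V) : Obj ι V :=
  (x.1, Function.update x.2 b (fun m => if m ≤ i b then x.2 b m else v))

/-- the type of a prolonged object -/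
noncomputable def up (i : ι → ℕ) (b : ι) : ι → ℕ := Function.update i b (i b + 1)

theorem up_self (i : ι → ℕ) (b : ι) : up i b b = i b + 1 := Function.update_self ..

theorem up_ne {i : ι → ℕ} {b c : ι} (h : c ≠ b) : up i b c = i c := Function.update_of_ne h _ _

theorem le_up (i : ι → ℕ) (b c : ι) : i c ≤ up i b c := by
  by_cases h : c = b
  · subst h
    rw [up_self]
    omega
  · rw [up_ne h]

@[simp] theorem plus_fst (i : ι → ℕ) (b : ι) (x : Obj ι V) (v : V) : (plus i b x v).1 = x.1 := rfl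

theorem plus_ne {i : ι → ℕ} {b : ι} {x : Obj ι V} {v : V} {c : ι} (h : c ≠ b) :
    (plus i b x v).2 c = x.2 c := Function.update_of_ne h _ _

theorem plus_self (i : ι → ℕ) (b : ι) (x : Obj ι V) (v : V) :
    (plus i b x v).2 b = fun m => if m ≤ i b then x.2 b m else v := by
  unfold plus
  exact Function.update_self b _ x.2

theorem plus_le {i : ι → ℕ} {b : ι} {x : Obj ι V} {v : V} {c : ι} {m : ℕ} (h : m ≤ i c) :
    (plus i b x v).2 c m = x.2 c m := by
  by_cases hc : c = b
  · subst hc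
    rw [plus_self]
    exact if_pos h
  · rw [plus_ne hc]

theorem plus_top (i : ι → ℕ) (b : ι) (x : Obj ι V) (v : V) :
    (plus i b x v).2 b (i b + 1) = v := by
  rw [plus_self]
  exact if_neg (by omega)

theorem tr_plus {i : ι → ℕ} (b : ι) {x : Obj ι V} (v : V) (h : tr i x = x) :
    tr i (plus i b x v) = x := by
  conv_rhs => rw [← h]
  rw [tr_eq_iff]
  exact ⟨rfl, fun c m hm => plus_le hm⟩

theorem can_plus {i : ι → ℕ} (b : ι) {x : Obj ι V} (v : V) (h : tr i x = x) :
    tr (up i b) (plus i b x v) = plus i b x v := by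
  refine Prod.ext rfl ?_
  funext c m
  rw [tr_snd]
  by_cases hc : c = b
  · subst hc
    rw [up_self, plus_self]
    by_cases hm : m ≤ i c
    · rw [min_eq_left (by omega)]
    · have h1 : min m (i c + 1) = i c + 1 := by omega
      rw [h1]
      dsimp only
      rw [if_neg (by omega), if_neg hm]
  · rw [up_ne hc, plus_ne hc]
    have := congrFun (congrFun (congrArg Prod.snd h) c) m
    rw [tr_snd] at this
    exact this

theorem ends_plus (i : ι → ℕ) (b : ι) (x : Obj ι V) (v : V) :
    ends (up i b) (plus i b x v) = Function.update (ends i x) b v := by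
  funext c
  by_cases hc : c = b
  · subst hc
    rw [Function.update_self]
    unfold ends
    rw [up_self, plus_top]
  · rw [Function.update_of_ne hc]
    unfold ends
    rw [up_ne hc, plus_ne hc]

variable [Fintype ι]

theorem sp_plus {G : SimpleGraph V} {i : ι → ℕ} {b : ι} {x : Obj ι V} {v : V} (h : Sp G i x)
    (hadj : G.Adj (x.2 b (i b)) v) (hv : v ∉ vs i x) : Sp G (up i b) (plus i b x v) where
  start c := by
    rw [plus_le (Nat.zero_le _)]
    exact h.start c
  adj c m hm := by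
    by_cases hc : c = b
    · subst hc
      rw [up_self] at hm
      rcases Nat.lt_or_ge m (i c) with h1 | h1
      · rw [plus_le h1.le, plus_le (by omega)]
        exact h.adj c m h1
      · obtain rfl : m = i c := by omega
        rw [plus_le le_rfl, plus_top]
        exact hadj
    · rw [up_ne hc] at hm
      rw [plus_ne hc]
      exact h.adj c m hm
  inj c c' m m' h1 h2 h3 he := by
    have hv' : ∀ c m, m ≤ i c → x.2 c m ≠ v := fun c m hm he =>
      hv (mem_vs.2 (Or.inr ⟨c, m, hm, he⟩))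
    have key : ∀ c m, m ≤ up i b c → m ≤ i c ∨ (c = b ∧ m = i b + 1) := by
      intro c m hm
      by_cases hc : c = b
      · subst hc
        rw [up_self] at hm
        rcases Nat.lt_or_ge (i c) m with h | h
        · right
          exact ⟨rfl, by omega⟩
        · left
          exact h
      · rw [up_ne hc] at hm
        exact Or.inl hm
    rcases key c m h2 with a1 | ⟨a1, a2⟩ <;> rcases key c' m' h3 with b1 | ⟨b1, b2⟩
    · rw [plus_le a1, plus_le b1] at he
      exact h.inj c c' m m' h1 a1 b1 he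
    · subst b1
      subst b2
      rw [plus_le a1, plus_top] at he
      exact absurd he (hv' _ _ a1)
    · subst a1
      subst a2
      rw [plus_le b1, plus_top] at he
      exact absurd he.symm (hv' _ _ b1)
    · subst a1
      subst a2
      subst b1
      subst b2
      exact ⟨rfl, rfl⟩

end plus

/-! ### The bases -/

section bases

variable {V : Type} [Fintype V]

/-- the ends of the clean `(k - 1)`-paths from `u` with attachments -/
noncomputable def eps (G : SimpleGraph V) (k r B d : ℕ) (R : ℕ → ℕ) (u : V) : Finset V :=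
  ((PP G (k - 1)).filter fun p => p 0 = u ∧ Clean G (k - 1) R p ∧
    Att G k r B d R (k - 1) u (p (Fin.last (k - 1)))).image fun p => p (Fin.last (k - 1))

theorem card_eps_le (G : SimpleGraph V) (k r B d K : ℕ) (R : ℕ → ℕ)
    (hΔ : ∀ w, G.degree w ≤ K * d) (u : V) : #(eps G k r B d R u) ≤ (K * d) ^ (k - 1) := by
  refine card_image_le.trans ?_
  have h := Pool.Agent.Helper97.RE.card_window G (K * d) hΔ 0 {fun _ => u} (k - 1) 0 (by omega)
  rw [card_singleton, mul_one, Nat.sub_zero] at h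
  refine le_trans (card_le_card ?_) h
  intro p hp
  rw [mem_filter] at hp ⊢
  refine ⟨hp.1, ?_⟩
  rw [mem_singleton]
  funext a
  obtain rfl : a = 0 := Fin.ext (by omega)
  rw [Pool.Agent.Helper97.RE.win_zero]
  exact hp.2.1

theorem card_eps_ge (G : SimpleGraph V) (k r B d : ℕ) (R : ℕ → ℕ) (u : V)
    (h : VT G k r B d R u) : d ^ (k - 1) ≤ B * (Cb R (k - 1) * #(eps G k r B d R u)) := by
  refine le_trans h (Nat.mul_le_mul_left _ ?_)
  have h1 : ∀ v ∈ eps G k r B d R u, #{p ∈ {p ∈ PP G (k - 1) | p 0 = u ∧ Clean G (k - 1) R p ∧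
      Att G k r B d R (k - 1) u (p (Fin.last (k - 1)))} | p (Fin.last (k - 1)) = v} ≤
        Cb R (k - 1) := by
    intro v _
    refine le_trans ?_ (Pool.Agent.Helper97.RE.cnt_le G (k - 1) R (k - 1) le_rfl u v)
    unfold Pool.Agent.Helper97.RE.cnt
    refine card_le_card ?_
    intro p hp
    rw [mem_filter, mem_filter] at hp
    rw [mem_filter]
    exact ⟨hp.1.1, hp.1.2.2.1, hp.1.2.1, hp.2⟩
  exact card_le_mul_card_image_of_maps_to (f := fun p : Fin (k - 1 + 1) → V => p (Fin.last (k - 1)))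
    (fun p hp => mem_image_of_mem _ hp) _ h1

end bases

end StepC

open StepC

theorem stepC' {ι : Type} [Fintype ι] (F : Type) [Fintype F] (i j : ι → ℕ) (b : ι)
    (k K B N0 : ℕ) (R : ℕ → ℕ) (hi : ∀ c, 1 ≤ i c ∧ i c ≤ j c) (hj : ∀ c, j c < k)
    (hb : 2 ≤ i b) (hbj : i b < j b) : ∃ M3 : ℕ, ∀ f0 : ℕ, ∃ M0 M1 d0 : ℕ,
    ∀ {V : Type} [Fintype V] [Nonempty V] (G : SimpleGraph V) (d r : ℕ),
      (∀ w, G.degree w ≤ K * d) → d0 ≤ d → rmin j F k N0 ≤ r →
      ∀ (T2 : Finset (Obj ι V)) (EE : Finset ((ι → V) × V)), Sys G k r B d R i b T2 EE →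
      M0 * (#(EE.image fun e => Function.update e.1 b e.2) * Fintype.card V) ≤
        d ^ (k - 1) * #(Om i T2 EE) →
      M1 * (Fintype.card V * d ^ (∑ c, i c)) ≤ #(Om i T2 EE) →
      (∃ X : ι ⊕ F → V, Flex G (Sum.elim j fun _ => k) N0 X) ∨
        #(Om i T2 EE) ≤ M3 * #{ω ∈ Om i T2 EE | f0 < fan i b T2 EE ω} := by
  have hk3 : 3 ≤ k := by
    have := hj b
    omega
  set m0 : ι → ℕ := up i b with hm0
  have hm01 : ∀ c, 1 ≤ m0 c := fun c => (hi c).1.trans (le_up i b c)
  have hm0j : ∀ c, m0 c ≤ j c := by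
    intro c
    by_cases hc : c = b
    · subst hc
      rw [hm0, up_self]
      omega
    · rw [hm0, up_ne hc]
      exact (hi c).2
  have hsum0 : ∑ c, m0 c = ∑ c, i c + 1 := by
    rw [hm0, up, Finset.sum_update_of_mem (mem_univ b)]
    rw [← Finset.add_sum_erase univ i (mem_univ b), sdiff_singleton_eq_erase]
    omega
  obtain ⟨Ca, da, hatt⟩ := attach F k (k - 1) K B (∑ c, (m0 c + 1) + 1) R (by omega) (by omega)
  obtain ⟨Nm, hacl⟩ := acl m0 hm01 (R 2) (fun _ => 4 * nmin j N0 + 1)
  set D1 : ℕ := B * Cb R (k - 1) with hD1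
  refine ⟨2 * (D1 * Ca * Nm) * K ^ (k - 1), fun f0 => ?_⟩
  refine ⟨2 * (D1 * Ca * Nm) * (Nm * f0),
    4 * (D1 * Ca * Nm) * (Fintype.card ι * nmin j N0 * K ^ (∑ c, i c + (k - 1))) + 1,
    max da 1, ?_⟩
  intro V _ _ G d r hΔ hd hr T2 EE hsys hM0 hM1
  have hd1 : 1 ≤ d := (le_max_right _ _).trans hd
  have hda : da ≤ d := (le_max_left _ _).trans hd
  -- properties of the elements of `Om`
  have hOm : ∀ ω ∈ Om i T2 EE, ω.1 ∈ T2 ∧ (ends i ω.1, ω.2) ∈ EE ∧ ω.2 ∉ inn i ω.1 := by
    intro ω hω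
    unfold Om at hω
    rw [mem_filter, mem_product] at hω
    exact ⟨hω.1.1, hω.2.1, hω.2.2⟩
  have hOmvs : ∀ ω ∈ Om i T2 EE, ω.2 ∉ vs i ω.1 := by
    intro ω hω hmem
    obtain ⟨h1, h2, h3⟩ := hOm ω hω
    rw [mem_vs] at hmem
    rcases hmem with h | ⟨c, m, hm, he⟩
    · exact h3 (mem_inn.2 (Or.inl h))
    · rcases Nat.eq_zero_or_pos m with h0 | h0
      · subst h0
        rw [(hsys.ga _ h1).good.sp.start c] at he
        exact h3 (mem_inn.2 (Or.inl he.symm))
      · rcases hm.lt_or_eq with h4 | h4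
        · exact h3 (mem_inn.2 (Or.inr ⟨c, m, h0, h4, he⟩))
        · subst h4
          exact hsys.ne _ h2 c he.symm
  -- the set `Ω3`
  set Q3 : Finset ((Obj ι V × V) × V) :=
    (Om i T2 EE).biUnion fun ω => (eps G k r B d R ω.1.1).image fun v => (ω, v) with hQ3
  have hmemQ3 : ∀ q, q ∈ Q3 ↔ q.1 ∈ Om i T2 EE ∧ q.2 ∈ eps G k r B d R q.1.1.1 := by
    intro q
    rw [hQ3, mem_biUnion]
    constructor
    · rintro ⟨ω, hω, hq⟩
      rw [mem_image] at hq
      obtain ⟨v, hv, rfl⟩ := hq
      exact ⟨hω, hv⟩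
    · rintro ⟨h1, h2⟩
      exact ⟨q.1, h1, mem_image.2 ⟨q.2, h2, rfl⟩⟩
  set φ : (Obj ι V × V) × V → Obj ι V × V := fun q => (plus i b q.1.1 q.1.2, q.2) with hφ
  have hφinj : Set.InjOn φ Q3 := by
    intro q hq q' hq' he
    rw [mem_coe, hmemQ3] at hq hq'
    rw [hφ] at he
    simp only [Prod.mk.injEq] at he
    have c1 := (hsys.ga _ (hOm _ hq.1).1).good.can
    have c2 := (hsys.ga _ (hOm _ hq'.1).1).good.can
    have e1 : q.1.1 = q'.1.1 := by
      rw [← tr_plus b q.1.2 c1, he.1, tr_plus b q'.1.2 c2]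
    have e2 : q.1.2 = q'.1.2 := by
      rw [← plus_top i b q.1.1 q.1.2, he.1, plus_top]
    exact Prod.ext (Prod.ext e1 e2) he.2
  -- lower bound for `Q3`
  have hQ3low : d ^ (k - 1) * #(Om i T2 EE) ≤ D1 * #Q3 := by
    have h1 : #Q3 = ∑ ω ∈ Om i T2 EE, #(eps G k r B d R ω.1.1) := by
      rw [hQ3, card_biUnion]
      · refine sum_congr rfl fun ω _ => ?_
        rw [card_image_of_injective]
        intro v v' h
        exact (Prod.mk.inj h).2
      · intro ω _ ω' _ hne
        rw [Function.onFun, disjoint_left]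
        intro q h1 h2
        rw [mem_image] at h1 h2
        obtain ⟨v, _, rfl⟩ := h1
        obtain ⟨v', _, h3⟩ := h2
        exact hne (Prod.mk.inj h3).1.symm
    rw [h1, mul_sum, mul_comm, ← smul_eq_mul]
    refine card_nsmul_le_sum _ _ _ ?_
    intro ω hω
    have := card_eps_ge G k r B d R ω.1.1 (hsys.ga _ (hOm _ hω).1).vt
    rw [hD1, mul_assoc]
    exact this
  have hcardim : #(Q3.image φ) = #Q3 := card_image_of_injOn hφinj
  have hmemΩ3 : ∀ ω ∈ Q3.image φ, ∃ x v, (x, v) ∈ Om i T2 EE ∧ ω.2 ∈ eps G k r B d R x.1 ∧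
      ω.1 = plus i b x v := by
    intro ω hω
    rw [mem_image] at hω
    obtain ⟨q, hq, rfl⟩ := hω
    rw [hmemQ3] at hq
    exact ⟨q.1.1, q.1.2, hq.1, hq.2, rfl⟩
  obtain ⟨ζ, hζ⟩ := hatt G d r hΔ hda (Q3.image φ) (fun ω => ω.1.1) (fun ω => ω.2)
    (fun ω => vs m0 ω.1) (by
      intro ω hω
      refine ⟨?_, card_vs_le _ _⟩
      obtain ⟨x, v, h1, h2, h3⟩ := hmemΩ3 ω hω
      rw [h3]
      unfold eps at h2
      rw [mem_image] at h2
      obtain ⟨p, hp, hp2⟩ := h2
      rw [mem_filter] at hp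
      rw [← hp2]
      exact hp.2.2.2)
  set Ω4 : Finset (Obj ι V × V) := {ω ∈ Q3.image φ | Function.Injective (ζ ω.2) ∧
    ∀ f, Rich G k r ω.1.1 (ζ ω.2 f) ∧ ζ ω.2 f ∉ vs m0 ω.1} with hΩ4
  have hζ' : #(Q3.image φ) ≤ Ca * #Ω4 := hζ
  have hΩ4mem : ∀ ω ∈ Ω4, ∃ x v, (x, v) ∈ Om i T2 EE ∧ ω.2 ∈ eps G k r B d R x.1 ∧
      ω.1 = plus i b x v := by
    intro ω hω
    rw [hΩ4, mem_filter] at hω
    exact hmemΩ3 ω hω.1
  have hmain : d ^ (k - 1) * #(Om i T2 EE) ≤ D1 * Ca * #Ω4 := by
    calc d ^ (k - 1) * #(Om i T2 EE) ≤ D1 * #Q3 := hQ3low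
      _ = D1 * #(Q3.image φ) := by rw [hcardim]
      _ ≤ D1 * (Ca * #Ω4) := Nat.mul_le_mul_left _ hζ'
      _ = _ := by ring
  rcases (Om i T2 EE).eq_empty_or_nonempty with hemp | hOmne
  · right
    rw [hemp, card_empty]
    exact Nat.zero_le _
  have hΩ4ne : Ω4.Nonempty := by
    rw [← card_pos]
    by_contra h0
    have h0' : #Ω4 = 0 := by omega
    rw [h0', mul_zero] at hmain
    have h1 : 0 < d ^ (k - 1) * #(Om i T2 EE) :=
      Nat.mul_pos (Nat.pow_pos hd1) (card_pos.2 hOmne)
    omega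
  -- the closure
  obtain ⟨N, hN1, hNm, hcase⟩ := hacl Ω4 hΩ4ne (by
    intro c c' hc w w'
    refine le_trans (card_le_card ?_)
      (card_centre_le G (k - 1) R i (fun c => (hi c).1) T2 (fun x hx => (hsys.ga x hx).good)
        c c' hc w w')
    intro u hu
    rw [mem_image] at hu ⊢
    obtain ⟨ω, hω, rfl⟩ := hu
    rw [mem_filter] at hω
    obtain ⟨x, v, h1, h2, h3⟩ := hΩ4mem ω hω.1
    refine ⟨x, ?_, ?_⟩
    · rw [mem_filter]
      refine ⟨(hOm _ h1).1, ?_, ?_⟩
      · rw [← hω.2.1, h3, plus_le (hi c).1]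
      · rw [← hω.2.2, h3, plus_le (hi c').1]
    · rw [h3]
      rfl)
  rcases hcase with ⟨T, hT, hcov⟩ | ⟨m, Ω1, Ω2, hm, hm1, hΩ1, hΩ2, hN, h12, -, hit⟩
  · -- the centre is determined up to `N` choices
    right
    set A1 : Finset (Obj ι V × V) := {ω ∈ Ω4 | ω.1.1 ∈ T (ends m0 ω.1, ω.2) ∧
      fan i b T2 EE (tr i ω.1, ω.1.2 b (i b + 1)) ≤ f0} with hA1
    set A2 : Finset (Obj ι V × V) := {ω ∈ Ω4 |
      f0 < fan i b T2 EE (tr i ω.1, ω.1.2 b (i b + 1))} with hA2
    have hback : ∀ ω ∈ Ω4, (tr i ω.1, ω.1.2 b (i b + 1)) ∈ Om i T2 EE ∧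
        ω.2 ∈ eps G k r B d R ω.1.1 ∧
        ω.1 = plus i b (tr i ω.1) (ω.1.2 b (i b + 1)) ∧
        ends m0 ω.1 = Function.update (ends i (tr i ω.1)) b (ω.1.2 b (i b + 1)) := by
      intro ω hω
      obtain ⟨x, v, h1, h2, h3⟩ := hΩ4mem ω hω
      have c1 : tr i x = x := (hsys.ga _ (hOm _ h1).1).good.can
      have e1 : tr i ω.1 = x := by rw [h3, tr_plus b v c1]
      have e2 : ω.1.2 b (i b + 1) = v := by rw [h3, plus_top]
      rw [e1, e2]
      refine ⟨h1, ?_, h3, ?_⟩
      · rw [h3]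
        exact h2
      · rw [h3]
        exact ends_plus i b x v
    have hsplit : #{ω ∈ Ω4 | ω.1.1 ∈ T (ends m0 ω.1, ω.2)} ≤ #A1 + #A2 := by
      refine le_trans (card_le_card ?_) (card_union_le _ _)
      intro ω hω
      rw [mem_filter] at hω
      rw [mem_union]
      rcases Nat.lt_or_ge f0 (fan i b T2 EE (tr i ω.1, ω.1.2 b (i b + 1))) with h | h
      · exact Or.inr (mem_filter.2 ⟨hω.1, h⟩)
      · exact Or.inl (mem_filter.2 ⟨hω.1, hω.2, h⟩)
    have hA1c : #A1 ≤ N * f0 * (#(EE.image fun e => Function.update e.1 b e.2) *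
        Fintype.card V) := by
      rw [← card_univ, ← card_product]
      refine card_le_mul_card_image_of_maps_to (f := fun ω : Obj ι V × V => (ends m0 ω.1, ω.2))
        ?_ _ ?_
      · intro ω hω
        rw [hA1, mem_filter] at hω
        obtain ⟨g1, g2, g3, g4⟩ := hback ω hω.1
        rw [mem_product]
        refine ⟨?_, mem_univ _⟩
        rw [mem_image]
        exact ⟨_, (hOm _ g1).2.1, g4.symm⟩
      · intro κ _
        rw [mul_comm]
        refine le_trans ?_ (Nat.mul_le_mul_left f0 (hT κ))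
        refine card_le_mul_card_image_of_maps_to (f := fun ω : Obj ι V × V => ω.1.1) ?_ _ ?_
        · intro ω hω
          rw [mem_filter, hA1, mem_filter] at hω
          rw [← hω.2]
          exact hω.1.2.1
        · intro u _
          rcases ({ω ∈ {ω ∈ A1 | (ends m0 ω.1, ω.2) = κ} | ω.1.1 = u} :
            Finset (Obj ι V × V)).eq_empty_or_nonempty with he | ⟨ω0, hω0⟩
          · rw [he, card_empty]
            exact Nat.zero_le _
          · rw [mem_filter, mem_filter, hA1, mem_filter] at hω0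
            refine le_trans ?_ hω0.1.1.2.2
            unfold fan
            refine card_le_card_of_injOn (fun ω => (tr i ω.1, ω.1.2 b (i b + 1))) ?_ ?_
            · intro ω hω
              rw [mem_coe, mem_filter, mem_filter, hA1, mem_filter] at hω
              rw [mem_coe, mem_filter]
              obtain ⟨g1, g2, g3, g4⟩ := hback ω hω.1.1.1
              obtain ⟨k1, k2, k3, k4⟩ := hback ω0 hω0.1.1.1
              refine ⟨g1, ?_, ?_⟩
              · change ω.1.1 = ω0.1.1
                rw [hω.2, hω0.2]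
              · rw [← g4, ← k4]
                exact (congrArg Prod.fst (hω.1.2.trans hω0.1.2.symm) :)
            · intro ω hω ω' hω' he
              rw [mem_coe, mem_filter, mem_filter, hA1, mem_filter] at hω hω'
              simp only [Prod.mk.injEq] at he
              obtain ⟨g1, g2, g3, g4⟩ := hback ω hω.1.1.1
              obtain ⟨k1, k2, k3, k4⟩ := hback ω' hω'.1.1.1
              refine Prod.ext ?_ ?_
              · rw [g3, k3, he.1, he.2]
              · exact (congrArg Prod.snd (hω.1.2.trans hω'.1.2.symm) :)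
    have hA2c : #A2 ≤ (K * d) ^ (k - 1) * #{ω ∈ Om i T2 EE | f0 < fan i b T2 EE ω} := by
      refine card_le_mul_card_image_of_maps_to
        (f := fun ω : Obj ι V × V => (tr i ω.1, ω.1.2 b (i b + 1))) ?_ _ ?_
      · intro ω hω
        rw [hA2, mem_filter] at hω
        rw [mem_filter]
        exact ⟨(hback ω hω.1).1, hω.2⟩
      · intro y _
        refine le_trans ?_ (card_eps_le G k r B d K R hΔ y.1.1)
        refine card_le_card_of_injOn (fun ω => ω.2) ?_ ?_
        · intro ω hω
          rw [mem_coe, mem_filter, hA2, mem_filter] at hω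
          obtain ⟨g1, g2, g3, g4⟩ := hback ω hω.1.1
          rw [mem_coe, ← hω.2]
          exact g2
        · intro ω hω ω' hω' he
          rw [mem_coe, mem_filter, hA2, mem_filter] at hω hω'
          obtain ⟨g1, g2, g3, g4⟩ := hback ω hω.1.1
          obtain ⟨k1, k2, k3, k4⟩ := hback ω' hω'.1.1
          have e := hω.2.trans hω'.2.symm
          simp only [Prod.mk.injEq] at e
          refine Prod.ext ?_ he
          rw [g3, k3, e.1, e.2]
    have hpos : 0 < d ^ (k - 1) := Nat.pow_pos hd1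
    set q := #(EE.image fun e => Function.update e.1 b e.2) * Fintype.card V with hq
    set Fb := #{ω ∈ Om i T2 EE | f0 < fan i b T2 EE ω} with hFb
    have h1 : #Ω4 ≤ Nm * (Nm * f0 * q + (K * d) ^ (k - 1) * Fb) := by
      calc #Ω4 ≤ N * #{ω ∈ Ω4 | ω.1.1 ∈ T (ends m0 ω.1, ω.2)} := hcov
        _ ≤ Nm * (#A1 + #A2) := Nat.mul_le_mul hNm hsplit
        _ ≤ Nm * (Nm * f0 * q + (K * d) ^ (k - 1) * Fb) := by
          refine Nat.mul_le_mul_left _ (Nat.add_le_add (hA1c.trans ?_) hA2c)
          exact Nat.mul_le_mul_right _ (Nat.mul_le_mul_right _ hNm)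
    have h2 : 2 * (d ^ (k - 1) * #(Om i T2 EE)) ≤
        d ^ (k - 1) * #(Om i T2 EE) + d ^ (k - 1) * (2 * (D1 * Ca * Nm) * K ^ (k - 1) * Fb) := by
      calc 2 * (d ^ (k - 1) * #(Om i T2 EE)) ≤ 2 * (D1 * Ca * #Ω4) := Nat.mul_le_mul_left _ hmain
        _ ≤ 2 * (D1 * Ca * (Nm * (Nm * f0 * q + (K * d) ^ (k - 1) * Fb))) :=
          Nat.mul_le_mul_left _ (Nat.mul_le_mul_left _ h1)
        _ = 2 * (D1 * Ca * Nm) * (Nm * f0) * q +
            d ^ (k - 1) * (2 * (D1 * Ca * Nm) * K ^ (k - 1) * Fb) := by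
          rw [mul_pow]
          ring
        _ ≤ _ := Nat.add_le_add_right hM0 _
    have h3 : d ^ (k - 1) * #(Om i T2 EE) ≤
        d ^ (k - 1) * (2 * (D1 * Ca * Nm) * K ^ (k - 1) * Fb) := by omega
    exact Nat.le_of_mul_le_mul_left h3 hpos
  · -- a flexible family
    left
    have hmj : ∀ c, m c ≤ j c := fun c => (hm c).2.trans (hm0j c)
    have hΩ24 : Ω2 ⊆ Ω4 := hΩ2.trans hΩ1
    have hsp0 : ∀ ω ∈ Ω4, Sp G m0 ω.1 ∧ tr m0 ω.1 = ω.1 := by
      intro ω hω
      obtain ⟨x, v, h1, h2, h3⟩ := hΩ4mem ω hω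
      have g : Good G (k - 1) R i x := (hsys.ga x (hOm (x, v) h1).1).good
      have hee : (ends i x, v) ∈ EE := (hOm (x, v) h1).2.1
      have hv : v ∉ vs i x := hOmvs (x, v) h1
      have hadj : G.Adj (x.2 b (i b)) v := hsys.adj (ends i x, v) hee
      have a1 : Sp G (up i b) (plus i b x v) := sp_plus g.sp hadj hv
      have a2 : tr (up i b) (plus i b x v) = plus i b x v := can_plus b v g.can
      rw [h3]
      exact ⟨a1, a2⟩
    have hwk : ∀ ω ∈ Ω4, ω.1 ∈ WK G m0 := by
      intro ω hω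
      obtain ⟨h1, h2⟩ := hsp0 ω hω
      exact mem_WK.2 ⟨h2, h1.start, h1.adj⟩
    have heps : ∀ ω ∈ Ω4, ω.2 ∈ eps G k r B d R ω.1.1 := by
      intro ω hω
      obtain ⟨x, v, h1, h2, h3⟩ := hΩ4mem ω hω
      rw [h3]
      exact h2
    set P : ℕ := Fintype.card V * d ^ (∑ c, i c + (k - 1)) with hP
    have hP1 : 1 ≤ P := Nat.mul_pos Fintype.card_pos (Nat.pow_pos hd1)
    have hbig : 2 * (Fintype.card ι * nmin j N0 * K ^ (∑ c, i c + (k - 1))) * P < #Ω2 := by
      by_contra hcon
      have hcon' : #Ω2 ≤ 2 * (Fintype.card ι * nmin j N0 * K ^ (∑ c, i c + (k - 1))) * P := by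
        omega
      have h1 : (4 * (D1 * Ca * Nm) * (Fintype.card ι * nmin j N0 *
          K ^ (∑ c, i c + (k - 1))) + 1) * P ≤
          4 * (D1 * Ca * Nm) * (Fintype.card ι * nmin j N0 * K ^ (∑ c, i c + (k - 1))) * P := by
        calc _ = d ^ (k - 1) * ((4 * (D1 * Ca * Nm) * (Fintype.card ι * nmin j N0 *
              K ^ (∑ c, i c + (k - 1))) + 1) * (Fintype.card V * d ^ (∑ c, i c))) := by
              rw [hP, pow_add]
              ring
          _ ≤ d ^ (k - 1) * #(Om i T2 EE) := Nat.mul_le_mul_left _ hM1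
          _ ≤ D1 * Ca * #Ω4 := hmain
          _ ≤ D1 * Ca * (Nm * (2 * #Ω2)) :=
            Nat.mul_le_mul_left _ (hN.trans (Nat.mul_le_mul hNm h12))
          _ ≤ D1 * Ca * (Nm * (2 * (2 * (Fintype.card ι * nmin j N0 *
              K ^ (∑ c, i c + (k - 1))) * P))) :=
            Nat.mul_le_mul_left _ (Nat.mul_le_mul_left _ (Nat.mul_le_mul_left _ hcon'))
          _ = _ := by ring
      have h2 : ∀ a : ℕ, (a + 1) * P ≤ a * P → False := by
        intro a h
        rw [Nat.succ_mul] at h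
        omega
      exact h2 _ h1
    have hΩ2ne : Ω2.Nonempty := by
      rw [← card_pos]
      exact lt_of_le_of_lt (Nat.zero_le _) hbig
    refine flex_of_family G m j k N0 r ((K * d) ^ (∑ c, (m0 c - m c)))
      (fun c => ⟨(hm c).1, hmj c⟩) hm1 (by omega) hr Ω2 ζ hΩ2ne ?_ ?_ ?_ ?_
    · intro ω hω
      have h4 := hΩ24 hω
      have h4' := h4
      rw [hΩ4, mem_filter] at h4'
      refine ⟨(hsp0 ω h4).1.mono fun c => (hm c).2, h4'.2.1, fun f => ⟨(h4'.2.2 f).1, ?_⟩⟩
      intro hmem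
      refine (h4'.2.2 f).2 ?_
      rw [mem_vs] at hmem ⊢
      rcases hmem with h | ⟨c, a, ha, he⟩
      · exact Or.inl h
      · exact Or.inr ⟨c, a, ha.trans (hm c).2, he⟩
    · intro T hT
      exact cov_of_hit m (nmin j N0) 1 (4 * nmin j N0 + 1) Ω1 Ω2 Ω2 h12 (Subset.refl _)
        (by omega) (by omega) (by omega) hit T hT
    · intro y
      refine le_trans ?_ (card_wk_fiber G (K * d) hΔ m m0 (fun c => (hm c).2) y.1)
      refine card_le_card_of_injOn (fun ω => ω.1) ?_ ?_
      · intro ω hω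
        rw [mem_coe, mem_filter] at hω
        rw [mem_coe, mem_filter]
        exact ⟨hwk ω (hΩ24 hω.1), (congrArg Prod.fst hω.2 :)⟩
      · intro ω hω ω' hω' he
        rw [mem_coe, mem_filter] at hω hω'
        exact Prod.ext he (congrArg Prod.snd (hω.2.trans hω'.2.symm) :)
    · intro l hl
      have hsum1 : ∑ c, dn m l c + 1 = ∑ c, m c := by
        unfold dn
        rw [Finset.sum_update_of_mem (mem_univ l), ← Finset.add_sum_erase univ m (mem_univ l),
          sdiff_singleton_eq_erase]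
        have := (hm l).1
        omega
      have hsum2 : ∑ c, (m0 c - m c) + ∑ c, m c = ∑ c, m0 c := by
        rw [← sum_add_distrib]
        refine sum_congr rfl fun c _ => ?_
        have := (hm c).2
        omega
      have hdnm : ∀ c, dn m l c ≤ m0 c := by
        intro c
        refine le_trans ?_ (hm c).2
        unfold dn
        by_cases hc : c = l
        · subst hc
          rw [Function.update_self]
          omega
        · rw [Function.update_of_ne hc]
      have hst : #(Ω2.image fun ω => (tr (dn m l) ω.1, ω.2)) ≤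
          (K * d) ^ (k - 1) * (Fintype.card V * (K * d) ^ (∑ c, dn m l c)) := by
        have h0 := card_wk_le G (K * d) hΔ (dn m l) univ
        rw [card_univ] at h0
        refine le_trans ?_ (Nat.mul_le_mul_left _ h0)
        refine card_le_mul_card_image_of_maps_to (f := fun y : Obj ι V × V => y.1) ?_ _ ?_
        · intro y hy
          rw [mem_image] at hy
          obtain ⟨ω, hω, rfl⟩ := hy
          rw [mem_filter, mem_WK]
          refine ⟨⟨?_, ?_, ?_⟩, mem_univ _⟩
          · exact tr_idem _ _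
          · intro c
            rw [tr_snd_le _ (Nat.zero_le _)]
            exact (hsp0 ω (hΩ24 hω)).1.start c
          · intro c a ha
            rw [tr_snd_le _ ha.le, tr_snd_le _ ha]
            exact (hsp0 ω (hΩ24 hω)).1.adj c a (ha.trans_le (hdnm c))
        · intro y _
          refine le_trans ?_ (card_eps_le G k r B d K R hΔ y.1)
          refine card_le_card_of_injOn (fun z => z.2) ?_ ?_
          · intro z hz
            rw [mem_coe, mem_filter, mem_image] at hz
            obtain ⟨⟨ω, hω, rfl⟩, hz2⟩ := hz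
            rw [mem_coe, ← hz2]
            exact heps ω (hΩ24 hω)
          · intro z hz z' hz' he
            rw [mem_coe, mem_filter] at hz hz'
            exact Prod.ext (hz.2.trans hz'.2.symm) he
      refine lt_of_le_of_lt ?_ hbig
      calc 2 * (Fintype.card ι * (nmin j N0 * (K * d) ^ (∑ c, (m0 c - m c)) *
            #(Ω2.image fun ω => (tr (dn m l) ω.1, ω.2)))) ≤
          2 * (Fintype.card ι * (nmin j N0 * (K * d) ^ (∑ c, (m0 c - m c)) *
            ((K * d) ^ (k - 1) * (Fintype.card V * (K * d) ^ (∑ c, dn m l c))))) :=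
            Nat.mul_le_mul_left _ (Nat.mul_le_mul_left _ (Nat.mul_le_mul_left _ hst))
        _ = 2 * (Fintype.card ι * nmin j N0) * (Fintype.card V *
            (K * d) ^ (∑ c, (m0 c - m c) + ∑ c, dn m l c + (k - 1))) := by
            rw [pow_add, pow_add]
            ring
        _ = 2 * (Fintype.card ι * nmin j N0) * (Fintype.card V *
            (K * d) ^ (∑ c, i c + (k - 1))) := by
            congr 4
            omega
        _ = _ := by
            rw [hP, mul_pow]
            ring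

end Pool.Agent.Helper14.SP
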