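import Pool.Agent.Helper14.SP2.St.D
import Pool.Agent.Helper14.SP2.P.AclUnit

/-!
# Project SP2: assembly of world `k`
-/

set_option autoImplicit false

namespace Pool.Agent.Helper14.SP

open Finset Classical
open Pool.Agent.Helper97.RE (IsPath Rich PP Clean Cb)

/-- everything after the first application of the closure lemma, for a fixed type `i` -/
theorem endgame {ι : Type} [Fintype ι] [Nonempty ι] (F : Type) [Fintype F] (i j : ι → ℕ)
    (k K B N0 : ℕ) (R : ℕ → ℕ) (hi : ∀ c, 1 ≤ i c ∧ i c ≤ j c) (hj : ∀ c, j c < k)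
    (hi1 : ∀ c c', i c = 1 → i c' = 1 → c = c') (N : ℕ) : ∃ EN A0 : ℕ,
    ∀ {V : Type} [Fintype V] [Nonempty V] (G : SimpleGraph V) (d r : ℕ),
      (∀ w, G.degree w ≤ K * d) → A0 ≤ d → rmin j F k N0 ≤ r →
      A0 * Fintype.card V ^ (Fintype.card ι) ≤ d ^ (∑ c, j c + k) →
      ∀ Ω1 Ω2 : Finset (Obj ι V), (∀ x ∈ Ω1, GA G k r B d R j x) → Ω2 ⊆ Ω1 →
      #Ω1 ≤ 2 * #Ω2 → Fintype.card V * d ^ (∑ c, j c) ≤ N * #Ω2 →
      ∀ T : (ι → V) → Finset (ι → V), (∀ X, #(T X) ≤ N) →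
      (∀ x ∈ Ω1, ends i x ∈ T (ends j x)) →
      (∀ (W : ι → V) (β : V), EN * #{x ∈ Ω2 | ends i x = W ∧ β ∈ inn i x} ≤
        #{x ∈ Ω1 | ends i x = W}) →
      ∃ X : ι ⊕ F → V, Flex G (Sum.elim j fun _ => k) N0 X := by
  by_cases ha : ∃ a, i a = j a
  · obtain ⟨a, ha⟩ := ha
    obtain ⟨EN, hEN⟩ := stepA F i j k K B N0 R hi hj hi1 a ha
    obtain ⟨d0, hd0⟩ := hEN N
    refine ⟨EN, d0, ?_⟩
    intro V _ _ G d r h1 h2 h3 _ Ω1 Ω2 h5 h6 h7 h8 T _ _ h11
    exact hd0 G d r h1 h2 h3 Ω1 Ω2 h5 h6 h7 h8 h11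
  · push Not at ha
    have hi' : ∀ c, 1 ≤ i c ∧ i c < j c := fun c => ⟨(hi c).1, lt_of_le_of_ne (hi c).2 (ha c)⟩
    rcases stepB1 i j k K R hi' hj hi1 with ⟨b, hb⟩ | hB1
    · obtain ⟨M3, hC⟩ := stepC F i j b k K B N0 R hi hj hb (hi' b).2
      obtain ⟨f0, M1, M2, d1, hD⟩ := stepD F i j b k K B N0 M3 R hi hj hi1 hb (hi' b).2
      obtain ⟨M0, M1', d2, hC⟩ := hC f0
      obtain ⟨C5, C6, hT⟩ := trunc i j k K N R hi hj
      obtain ⟨E2, A0, hB⟩ := bip i b hb (fun c => (hi c).1) k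
        (fun c => (hi c).2.trans_lt (hj c)) K B C5 C6 M0 (max M1 M1') M2 (nmin j N0) R
      obtain ⟨EN, hT⟩ := hT E2
      refine ⟨EN, A0 + d1 + d2 + 1, ?_⟩
      intro V _ _ G d r h1 h2 h3 h4 Ω1 Ω2 h5 h6 h7 h8 T h9 h10 h11
      obtain ⟨T1, hT1, h12, h13, h14⟩ := hT G d h1 (by omega) Ω1 Ω2 (fun x hx => (h5 x hx).good)
        h6 h8 T h9 h10 h11
      have hGA : ∀ x ∈ T1, GA G k r B d R i x := by
        intro x hx
        obtain ⟨ω, hω, rfl⟩ := mem_image.1 (hT1 hx)
        exact (h5 ω (h6 hω)).tr (fun c => (hi c).1) (fun c => (hi c).2)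
      obtain ⟨T2, EE, hS, q1, q2, q3⟩ := hB G d r (∑ c, j c) h1 (by omega)
        (le_trans (Nat.mul_le_mul_right _ (by omega)) h4) T1 hGA h12 h13 h14
      rcases hC G d r h1 (by omega) h3 T2 EE hS q1
        (le_trans (Nat.mul_le_mul_right _ (le_max_right _ _)) q2) with hX | hF
      · exact hX
      · exact hD G d r h1 (by omega) h3 T2 EE hS
          (le_trans (Nat.mul_le_mul_right _ (le_max_left _ _)) q2) q3 hF
    · obtain ⟨d0, hd0⟩ := hB1 N
      refine ⟨0, d0, ?_⟩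
      intro V _ _ G d r h1 h2 h3 h4 Ω1 Ω2 h5 h6 h7 h8 T h9 h10 h11
      exact (hd0 G d h1 h2 Ω1 (fun x hx => (h5 x hx).good)
        (h8.trans (Nat.mul_le_mul_left _ (card_le_card h6))) T h9 h10).elim

theorem world_k' {ι F : Type} [Fintype ι] [Fintype F] [Nonempty ι] [Nonempty F] (j : ι → ℕ)
    (k N0 K : ℕ) (hK : 1 ≤ K) (hj1 : ∀ c, 1 ≤ j c) (hj : ∀ c, j c < k)
    (hk : 2 ≤ k) (hT : (Fintype.card ι - 1) * k + 1 ≤ ∑ c, j c) :
    World (Sum.elim j fun _ : F => k) N0 K k := by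
  have hk3 : 3 ≤ k ∨ Subsingleton ι := by
    by_cases h : 3 ≤ k
    · exact Or.inl h
    · right
      have hk2 : k = 2 := by omega
      subst hk2
      have h1 : ∀ c, j c = 1 := fun c => by have := hj1 c; have := hj c; omega
      have h2 : ∑ c, j c = Fintype.card ι := by
        rw [sum_congr rfl fun c _ => h1 c]; simp
      rw [h2] at hT
      have h3 : 1 ≤ Fintype.card ι := Fintype.card_pos
      exact Fintype.card_le_one_iff_subsingleton.1 (by omega)
  intro E
  obtain ⟨B, E', hcop⟩ := copies_k j k hj1 hj hk3 K E hK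
  refine ⟨E', ?_⟩
  intro R
  obtain ⟨d0, hcop⟩ := hcop R
  -- the finite set of types
  let I : Type := {i : ι → ℕ // (∀ c, 1 ≤ i c ∧ i c ≤ j c) ∧
    ∀ c c', i c = 1 → i c' = 1 → c = c'}
  have hfin : Finite I := by
    refine Finite.of_injective (β := ∀ c : ι, Fin (j c + 1))
      (fun i c => ⟨i.1 c, Nat.lt_succ_of_le (i.2.1 c).2⟩) ?_
    intro i i' h
    apply Subtype.ext
    funext c
    have := congrFun h c
    simpa using this
  have : Fintype I := Fintype.ofFinite I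
  have hend := fun (i : I) (N : ℕ) => endgame F i.1 j k K B N0 R i.2.1 hj i.2.2 N
  choose EN A0 hend using hend
  obtain ⟨Nm, hacl⟩ := acl_unit j hj1 (R 2) (fun N => ∑ i : I, EN i (B * N * 2))
  -- constants
  set CB : ℕ := ∏ c, Cb R (j c) with hCB
  set A : ℕ := d0 + (∑ N ∈ range (Nm + 1), ∑ i : I, A0 i (B * N * 2)) + B * (Nm * Nm * CB) + 1
    with hA
  have hA1 : 1 ≤ A := by omega
  refine ⟨rmin j F k N0, A ^ (∑ c, j c + Fintype.card F * k), ?_⟩
  intro V _ _ G d hdeg hn hrare hrich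
  have hq : 1 ≤ Fintype.card ι := Fintype.card_pos
  have hF : 1 ≤ Fintype.card F := Fintype.card_pos
  have hnV : 1 ≤ Fintype.card V := Fintype.card_pos
  have hsum : ∑ c, Sum.elim j (fun _ : F => k) c = ∑ c, j c + Fintype.card F * k := by
    rw [Fintype.sum_sum_type]
    simp
  have hcard : Fintype.card (ι ⊕ F) - 1 = Fintype.card ι - 1 + Fintype.card F := by
    rw [Fintype.card_sum]; omega
  rw [hsum, hcard] at hn
  obtain ⟨hAd, hRa, hRb⟩ := num_k k (Fintype.card ι) (Fintype.card F) (∑ c, j c) A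
    (Fintype.card V) d (by omega) hq hF hA1 hT hnV hn
  have hdeg' : ∀ w, G.degree w ≤ K * d := fun w => (hdeg w).2
  have hc := hcop G d (rmin j F k N0) hdeg (by omega) hrare hrich
  set GG : Finset (Obj ι V) := {x ∈ WK G j | GA G k (rmin j F k N0) B d R j x} with hGG
  have hGGm : ∀ x ∈ GG, GA G k (rmin j F k N0) B d R j x := fun x hx => (mem_filter.1 hx).2
  have hGGg : ∀ x ∈ GG, Good G (k - 1) R j x := fun x hx => (hGGm x hx).good
  have hpos : 0 < Fintype.card V * d ^ (∑ c, j c) := by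
    have : 1 ≤ d := by omega
    positivity
  have hBpos : 0 < B * #GG := lt_of_lt_of_le hpos hc
  have hGGne : GG.Nonempty := by
    rw [← card_pos]
    exact Nat.pos_of_mul_pos_left hBpos |> fun h => by
      rcases Nat.eq_zero_or_pos (#GG) with h0 | h0
      · rw [h0] at hBpos; simp at hBpos
      · exact h0
  obtain ⟨N, hN1, hN2, hcase⟩ := hacl GG hGGne (fun c c' hcc w w' =>
    card_centre_le G (k - 1) R j hj1 GG hGGg c c' hcc w w')
  rcases hcase with ⟨T, hT1, hT2⟩ | ⟨m, Ω1, Ω2, hm, hm1, hs1, hs2, hc1, hc2, ⟨T, hT1, hT2⟩, hit⟩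
  · -- the centre is determined by the roots: contradiction
    exfalso
    have h1 : #{x ∈ GG | x.1 ∈ T (ends j x)} ≤
        Fintype.card V ^ (Fintype.card ι) * (N * CB) := by
      have h2 : ({x ∈ GG | x.1 ∈ T (ends j x)} : Finset (Obj ι V)) ⊆
          (univ : Finset (ι → V)).biUnion fun X => (T X).biUnion fun u =>
            {x ∈ GG | x.1 = u ∧ ends j x = X} := by
        intro x hx
        rw [mem_filter] at hx
        rw [mem_biUnion]
        refine ⟨ends j x, mem_univ _, ?_⟩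
        rw [mem_biUnion]
        exact ⟨x.1, hx.2, mem_filter.2 ⟨hx.1, rfl, rfl⟩⟩
      refine (card_le_card h2).trans ?_
      refine card_biUnion_le.trans ?_
      have h3 : ∀ X ∈ (univ : Finset (ι → V)), #((T X).biUnion fun u =>
          {x ∈ GG | x.1 = u ∧ ends j x = X}) ≤ N * CB := by
        intro X _
        refine card_biUnion_le.trans ?_
        refine (sum_le_card_nsmul _ _ CB fun u _ =>
          card_good_le G (k - 1) R j (fun c => by have := hj c; omega) GG hGGg u X).trans ?_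
        rw [smul_eq_mul]
        exact Nat.mul_le_mul_right _ (hT1 X)
      refine (sum_le_card_nsmul _ _ _ h3).trans ?_
      rw [smul_eq_mul, card_univ, Fintype.card_fun]
    have h4 : #GG ≤ N * (Fintype.card V ^ (Fintype.card ι) * (N * CB)) :=
      hT2.trans (Nat.mul_le_mul_left _ h1)
    have h5 : Fintype.card V * (A * Fintype.card V ^ (Fintype.card ι - 1)) ≤
        B * (N * (Fintype.card V ^ (Fintype.card ι) * (N * CB))) :=
      (Nat.mul_le_mul_left _ hRa).trans (hc.trans (Nat.mul_le_mul_left _ h4))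
    have h6 : Fintype.card V * (A * Fintype.card V ^ (Fintype.card ι - 1)) =
        A * Fintype.card V ^ (Fintype.card ι) := by
      obtain ⟨q, hq'⟩ : ∃ q, Fintype.card ι = q + 1 := ⟨Fintype.card ι - 1, by omega⟩
      rw [hq', Nat.add_sub_cancel, pow_succ]
      ring
    have h7 : B * (N * (Fintype.card V ^ (Fintype.card ι) * (N * CB))) =
        (B * (N * N * CB)) * Fintype.card V ^ (Fintype.card ι) := by ring
    rw [h6, h7] at h5
    have h8 : A ≤ B * (N * N * CB) := by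
      refine Nat.le_of_mul_le_mul_right h5 ?_
      positivity
    have h9 : B * (N * N * CB) ≤ B * (Nm * Nm * CB) :=
      Nat.mul_le_mul_left _ (Nat.mul_le_mul_right _ (Nat.mul_le_mul hN2 hN2))
    omega
  · have h1 := hend ⟨m, hm, hm1⟩ (B * N * 2) (V := V) G d (rmin j F k N0) hdeg' ?_ le_rfl ?_ Ω1 Ω2
      (fun x hx => hGGm x (hs1 hx)) hs2 hc2 ?_ T ?_ hT2 ?_
    · exact h1
    · refine le_trans ?_ hAd
      have h2 : A0 ⟨m, hm, hm1⟩ (B * N * 2) ≤ ∑ i : I, A0 i (B * N * 2) :=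
        single_le_sum (f := fun i : I => A0 i (B * N * 2)) (fun _ _ => Nat.zero_le _)
          (mem_univ _)
      have h3 : ∑ i : I, A0 i (B * N * 2) ≤
          ∑ N ∈ range (Nm + 1), ∑ i : I, A0 i (B * N * 2) :=
        single_le_sum (f := fun N => ∑ i : I, A0 i (B * N * 2)) (fun _ _ => Nat.zero_le _)
          (mem_range.2 (by omega))
      omega
    · refine le_trans (Nat.mul_le_mul_right _ ?_) hRb
      have h2 : A0 ⟨m, hm, hm1⟩ (B * N * 2) ≤ ∑ i : I, A0 i (B * N * 2) :=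
        single_le_sum (f := fun i : I => A0 i (B * N * 2)) (fun _ _ => Nat.zero_le _)
          (mem_univ _)
      have h3 : ∑ i : I, A0 i (B * N * 2) ≤
          ∑ N ∈ range (Nm + 1), ∑ i : I, A0 i (B * N * 2) :=
        single_le_sum (f := fun N => ∑ i : I, A0 i (B * N * 2)) (fun _ _ => Nat.zero_le _)
          (mem_range.2 (by omega))
      omega
    · calc Fintype.card V * d ^ (∑ c, j c) ≤ B * #GG := hc
        _ ≤ B * (N * #Ω1) := Nat.mul_le_mul_left _ hc1
        _ ≤ B * (N * (2 * #Ω2)) := Nat.mul_le_mul_left _ (Nat.mul_le_mul_left _ hc2)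
        _ = B * N * 2 * #Ω2 := by ring
    · intro X
      refine (hT1 X).trans ?_
      have hB1 : 1 ≤ B := by
        rcases Nat.eq_zero_or_pos B with h0 | h0
        · rw [h0] at hBpos; simp at hBpos
        · exact h0
      nlinarith
    · intro W β
      refine le_trans (Nat.mul_le_mul_right _ ?_) (hit W β)
      exact single_le_sum (f := fun i : I => EN i (B * N * 2)) (fun _ _ => Nat.zero_le _)
        (mem_univ (⟨m, hm, hm1⟩ : I))

end Pool.Agent.Helper14.SP
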