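import Pool.Agent.Helper14.SP2.St.C

/-!
# Project SP2: world `l`, no leg shorter than `l`
-/

set_option autoImplicit false

namespace Pool.Agent.Helper14.SP

open Finset Classical
open Pool.Agent.Helper97.RE (IsPath Rich PP Clean Cb win)

/-- a system of distinct representatives off a small set -/
theorem exists_roots {ι V : Type} [Fintype ι] (S : ι → Finset V) (B : Finset V)
    (h : ∀ c, #B + Fintype.card ι ≤ #(S c)) :
    ∃ X : ι → V, Function.Injective X ∧ ∀ c, X c ∈ S c ∧ X c ∉ B := by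
  have h1 : ∀ T : Finset ι, #T ≤ #(T.biUnion fun c => S c \ B) := by
    intro T
    rcases T.eq_empty_or_nonempty with rfl | ⟨c, hc⟩
    · simp
    · have h2 : #T ≤ Fintype.card ι := card_le_univ T
      have h3 : #(S c) - #B ≤ #(S c \ B) := le_card_sdiff B (S c)
      have h4 : #(S c \ B) ≤ #(T.biUnion fun c => S c \ B) :=
        card_le_card (subset_biUnion_of_mem (fun c => S c \ B) hc)
      have h5 := h c
      omega
  obtain ⟨X, hX1, hX2⟩ := (Finset.all_card_le_biUnion_card_iff_exists_injective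
    (fun c => S c \ B)).1 h1
  exact ⟨X, hX1, fun c => by simpa using hX2 c⟩

theorem world_zero' {ι : Type} [Fintype ι] [Nonempty ι] (j : ι → ℕ) (N0 K l : ℕ) (hK : 1 ≤ K)
    (hl : 2 ≤ l) (hj : ∀ c, l ≤ j c) : World j N0 K l := by
  obtain ⟨h, rfl⟩ : ∃ h, l = h + 1 := ⟨l - 1, by omega⟩
  have hh : 1 ≤ h := by omega
  intro E
  obtain ⟨s, hs⟩ : ∃ s, s = Fintype.card ι := ⟨_, rfl⟩
  obtain ⟨m, hm⟩ : ∃ m, m = N0 + 1 := ⟨_, rfl⟩
  obtain ⟨N', hN'⟩ : ∃ N', N' = N0 + ∑ c, (j c + 2) + 1 := ⟨_, rfl⟩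
  obtain ⟨D, hD⟩ : ∃ D, D = N' + ∑ c, j c + 2 + m + s := ⟨_, rfl⟩
  obtain ⟨E1, hE1⟩ := hub K h (2 * E) m hh (by omega)
  refine ⟨2 * E * (K ^ (h + 1) * ((h + 1) * (h + 1))), fun R => ?_⟩
  obtain ⟨r, d0, hhub⟩ := hE1 (Cb R h) D D
  refine ⟨r, (d0 + 1) ^ (∑ c, j c), fun V _ _ G d hdeg hA hrare hrich => ?_⟩
  have hjpos : ∑ c, j c ≠ 0 := by
    obtain ⟨c0⟩ := ‹Nonempty ι›
    have h1 : j c0 ≤ ∑ c, j c := single_le_sum (fun _ _ => Nat.zero_le _) (mem_univ c0)
    have h2 := hj c0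
    omega
  have hcardV : 1 ≤ Fintype.card V := Fintype.card_pos
  have hd0 : d0 + 1 ≤ d := by
    have h1 : (d0 + 1) ^ (∑ c, j c) ≤ d ^ (∑ c, j c) :=
      (Nat.le_mul_of_pos_right _ (Nat.pow_pos hcardV)).trans hA
    exact (Nat.pow_le_pow_iff_left hjpos).1 h1
  -- few paths have an unclean tail
  set M : ℕ := K ^ (h + 1) * ((h + 1) * (h + 1)) with hM
  have hMpos : 0 < M := Nat.mul_pos (Nat.pow_pos hK) (by positivity)
  have hun : 2 * E * #{p ∈ PP G (h + 1) | ¬ Clean G h R (Fin.tail p : Fin (h + 1) → V)} ≤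
      Fintype.card V * d ^ (h + 1) := by
    have h1 := Pool.Agent.Helper97.RE.unclean_count G h K d (2 * E * M) R hK
      (fun w => (hdeg w).2) (fun i hi hi' => hrare i hi (by omega)) h
    have h2 := Pool.Agent.Helper97.RE.card_ext_first G (K * d) (fun w => (hdeg w).2) h
      ({q ∈ PP G h | ¬ Clean G h R q} : Finset (Fin (h + 1) → V))
    have h3 : #{p ∈ PP G (h + 1) | ¬ Clean G h R (Fin.tail p : Fin (h + 1) → V)} ≤
        #{p ∈ PP G (h + 1) | (Fin.tail p : Fin (h + 1) → V) ∈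
          ({q ∈ PP G h | ¬ Clean G h R q} : Finset (Fin (h + 1) → V))} := by
      refine card_le_card fun p hp => ?_
      rw [mem_filter] at hp ⊢
      refine ⟨hp.1, ?_⟩
      rw [mem_filter]
      exact ⟨Pool.Agent.Helper97.RE.mem_PP.2 (Pool.Agent.Helper97.RE.mem_PP.1 hp.1).tail, hp.2⟩
    have h4 : M * (2 * E * #{p ∈ PP G (h + 1) |
        ¬ Clean G h R (Fin.tail p : Fin (h + 1) → V)}) ≤
        M * (Fintype.card V * d ^ (h + 1)) := by
      calc M * (2 * E * #{p ∈ PP G (h + 1) | ¬ Clean G h R (Fin.tail p : Fin (h + 1) → V)})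
          = (2 * E * M) * #{p ∈ PP G (h + 1) |
              ¬ Clean G h R (Fin.tail p : Fin (h + 1) → V)} := by ring
        _ ≤ (2 * E * M) * (K * d * #{q ∈ PP G h | ¬ Clean G h R q}) :=
            Nat.mul_le_mul_left _ (h3.trans h2)
        _ = (K * d) * ((2 * E * M) * #{q ∈ PP G h | ¬ Clean G h R q}) := by ring
        _ ≤ (K * d) * ((h + 1) * (h + 1) * K ^ h * (Fintype.card V * d ^ h)) :=
            Nat.mul_le_mul_left _ h1
        _ = M * (Fintype.card V * d ^ (h + 1)) := by rw [hM]; ring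
    exact Nat.le_of_mul_le_mul_left h4 hMpos
  -- many rich paths have a clean tail
  have hmany : Fintype.card V * d ^ (h + 1) < 2 * E * #{p ∈ PP G (h + 1) |
      Rich G (h + 1) r (p 0) (p (Fin.last (h + 1))) ∧
        Clean G h R (Fin.tail p : Fin (h + 1) → V)} := by
    have h1 : #{p ∈ PP G (h + 1) | Rich G (h + 1) r (p 0) (p (Fin.last (h + 1)))} ≤
        #{p ∈ PP G (h + 1) | Rich G (h + 1) r (p 0) (p (Fin.last (h + 1))) ∧
          Clean G h R (Fin.tail p : Fin (h + 1) → V)} +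
        #{p ∈ PP G (h + 1) | ¬ Clean G h R (Fin.tail p : Fin (h + 1) → V)} := by
      refine (card_le_card ?_).trans (card_union_le _ _)
      intro p hp
      rw [mem_filter] at hp
      rw [mem_union, mem_filter, mem_filter]
      by_cases hc : Clean G h R (Fin.tail p : Fin (h + 1) → V)
      · exact Or.inl ⟨hp.1, hp.2, hc⟩
      · exact Or.inr ⟨hp.1, hc⟩
    have h2 := Nat.mul_le_mul_left (2 * E) h1
    rw [mul_add] at h2
    have h3 : 2 * (Fintype.card V * d ^ (h + 1)) <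
        2 * E * #{p ∈ PP G (h + 1) | Rich G (h + 1) r (p 0) (p (Fin.last (h + 1)))} := by
      rw [mul_assoc]
      exact Nat.mul_lt_mul_of_pos_left hrich (by norm_num)
    omega
  -- a vertex with many rich paths
  obtain ⟨v, hv⟩ : ∃ v : V, d ^ (h + 1) < 2 * E * #{p ∈ PP G (h + 1) |
      (Rich G (h + 1) r (p 0) (p (Fin.last (h + 1))) ∧
        Clean G h R (Fin.tail p : Fin (h + 1) → V)) ∧ p 1 = v} := by
    by_contra hcon
    push Not at hcon
    have h1 : #{p ∈ PP G (h + 1) | Rich G (h + 1) r (p 0) (p (Fin.last (h + 1))) ∧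
          Clean G h R (Fin.tail p : Fin (h + 1) → V)} =
        ∑ v : V, #{p ∈ PP G (h + 1) | (Rich G (h + 1) r (p 0) (p (Fin.last (h + 1))) ∧
          Clean G h R (Fin.tail p : Fin (h + 1) → V)) ∧ p 1 = v} := by
      rw [card_eq_sum_card_fiberwise (f := fun p : Fin (h + 1 + 1) → V => p 1) (t := univ)
        (fun _ _ => mem_coe.2 (mem_univ _))]
      refine sum_congr rfl fun v _ => ?_
      rw [filter_filter]
    rw [h1, mul_sum] at hmany
    have h2 : ∑ v : V, 2 * E * #{p ∈ PP G (h + 1) |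
        (Rich G (h + 1) r (p 0) (p (Fin.last (h + 1))) ∧
          Clean G h R (Fin.tail p : Fin (h + 1) → V)) ∧ p 1 = v} ≤
        ∑ _v : V, d ^ (h + 1) := sum_le_sum fun v _ => hcon v
    rw [sum_const, card_univ, smul_eq_mul] at h2
    omega
  -- the hub
  obtain ⟨Q, hQ⟩ : ∃ Q : Finset (Fin (h + 1) → V),
      Q = {q ∈ PP G h | Clean G h R q ∧ q 0 = v} := ⟨_, rfl⟩
  have hQ1 : ∀ p ∈ Q, IsPath G p ∧ p 0 = v := by
    intro p hp
    rw [hQ, mem_filter] at hp
    exact ⟨Pool.Agent.Helper97.RE.mem_PP.1 hp.1, hp.2.2⟩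
  have hQ2 : ∀ w, #{p ∈ Q | p (Fin.last h) = w} ≤ Cb R h := by
    intro w
    refine le_trans ?_ (Pool.Agent.Helper97.RE.cnt_le G h R h le_rfl v w)
    unfold Pool.Agent.Helper97.RE.cnt
    refine card_le_card fun p hp => ?_
    rw [hQ, mem_filter, mem_filter] at hp
    rw [mem_filter]
    exact ⟨hp.1.1, hp.1.2.1, hp.1.2.2, hp.2⟩
  have hQ3 : d ^ (h + 1) ≤ 2 * E * #{q ∈ (G.neighborFinset v) ×ˢ Q |
      Rich G (h + 1) r q.1 (q.2 (Fin.last h))} := by
    refine hv.le.trans (Nat.mul_le_mul_left _ ?_)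
    refine card_le_card_of_injOn (fun p => (p 0, (Fin.tail p : Fin (h + 1) → V))) ?_ ?_
    · intro p hp
      rw [mem_coe, mem_filter] at hp
      obtain ⟨hp1, ⟨hp2, hp3⟩, hp4⟩ := hp
      have hp1' := Pool.Agent.Helper97.RE.mem_PP.1 hp1
      rw [mem_coe, mem_filter, mem_product, SimpleGraph.mem_neighborFinset]
      refine ⟨⟨?_, ?_⟩, ?_⟩
      · have h1 := hp1'.2 0
        have h2 : p (Fin.succ 0) = v := hp4
        have h3 : p (Fin.castSucc 0) = p 0 := rfl
        rw [h2, h3] at h1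
        exact h1.symm
      · rw [hQ, mem_filter]
        exact ⟨Pool.Agent.Helper97.RE.mem_PP.2 hp1'.tail, hp3, hp4⟩
      · exact hp2
    · intro p _ p' _ hpp
      simp only [Prod.mk.injEq] at hpp
      rw [← Fin.cons_self_tail p, ← Fin.cons_self_tail p', hpp.1, hpp.2]
  obtain ⟨b, W, A, hHub, hW⟩ := hhub G d (fun w => (hdeg w).2) (by omega) v Q hQ1 hQ2 hQ3
  have hWne : W.Nonempty := by
    by_contra hcon
    rw [not_nonempty_iff_eq_empty] at hcon
    have h1 : #{p ∈ Q | p (Fin.last h) ∈ W} = 0 := by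
      rw [hcon]
      simp
    rw [h1, mul_zero] at hW
    have h2 : 0 < d ^ h := Nat.pow_pos (by omega)
    omega
  obtain ⟨w0, hw0⟩ := hWne
  have hAD : D ≤ #A := (hHub.degW w0 hw0).trans (card_le_card (filter_subset _ _))
  have hAne : A.Nonempty := by
    rw [← card_pos]
    omega
  obtain ⟨a0, ha0⟩ := hAne
  have hWD : D ≤ #W := (hHub.degA a0 ha0).trans (card_le_card (filter_subset _ _))
  -- the roots
  have hbcard : #(univ.image b) = m := by
    rw [card_image_of_injective _ hHub.inj, card_univ, Fintype.card_fin]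
  obtain ⟨X, hX1, hX2⟩ := exists_roots (fun c => if Even (j c - (h + 1)) then W else A)
    (univ.image b) (by
      intro c
      rw [hbcard]
      split_ifs <;> omega)
  refine ⟨X, fun Z hZ hXZ => ?_⟩
  -- a centre off `Z`
  obtain ⟨i, hi⟩ : ∃ i, b i ∉ Z := by
    by_contra hcon
    push Not at hcon
    have h1 : univ.image b ⊆ Z := by
      intro x hx
      obtain ⟨i, _, rfl⟩ := mem_image.1 hx
      exact hcon i
    have h2 := card_le_card h1
    omega
  have hrichX : ∀ c, Rich G (j c) N' (b i) (X c) := by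
    intro c
    have hjc : j c ≤ ∑ c, j c := single_le_sum (fun _ _ => Nat.zero_le _) (mem_univ c)
    have hXc := hX2 c
    refine Rich.symm (hHub.rich_b (by omega) (j c) N' (hj c) (by omega) (by omega) i (X c)
      ?_ ?_ ?_)
    · intro he
      exact hXc.2 (mem_image.2 ⟨i, mem_univ _, he.symm⟩)
    · intro he
      have := hXc.1
      rwa [if_pos he] at this
    · intro he
      have := hXc.1
      rwa [if_neg he] at this
  obtain ⟨x, hx1, hx2, hx3, hx4⟩ := ext_of_rich G j (fun c => by have := hj c; omega) X hX1 (b i) Z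
    N' (by omega) hrichX
  refine ⟨x, hx2, hx3, ?_, hx4⟩
  rw [hx1]
  exact hi

end Pool.Agent.Helper14.SP
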